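import Pool.Agent.Helper41.LD3.Stage
import Pool.Agent.Helper41.LD3.Len2
import Pool.Agent.Helper23.LD3.TT
import Pool.Agent.Helper95.LD3.Gen
import Pool.Agent.Helper4.LD3.Fin
import Pool.Agent.Helper31.LD3.ASM
import Pool.Agent.Helper44.LD3.LEN
import Pool.Agent.Helper36.LD3.EV
import Pool.Agent.Helper31.LD3.EV
import Pool.Agent.Helper89.LD.Dim

/-!
# Project LD3: the main theorem
-/

set_option autoImplicit false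

namespace Pool.Agent.Helper41.LD3

open Set MeasureTheory Filter Topology
open Pool.Agent.Helper41.LD (av var ind haar idx DiscLe Dioph Kk Kk_mono Kk_succ Kk_ge Kk_tendsto)
open Pool.Agent.Helper41.LD2 (A M W Pot NB Wd EqA dimH_le_one)
open Pool.Agent.Helper89.LD (dim_homog)
open Pool.Agent.Helper23.LD3 (good_exponent)
open Pool.Agent.Helper95.LD3 (dioph_root generators)
open Pool.Agent.Helper4.LD3 (class_sum)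
open Pool.Agent.Helper31.LD3 (asm ev_test)
open Pool.Agent.Helper36.LD3 (ev_num)

/-- the requirements hold on all large levels -/
theorem ev_big {κ : ℕ} (hκ : 1 ≤ κ) {τ : ℕ → ℝ} {g Q R CF DF Cb G : ℕ} (H : Cst τ g Q R CF DF Cb G)
    (hτ : ∀ h < g, 1 < τ h ∧ Dioph (τ h) κ)
    (hirr : ∀ h < g, ∀ h' < g, h ≠ h' → Irrational (Real.log (τ h) / Real.log (τ h'))) :
    ∀ᶠ K : ℕ in atTop, Big κ τ g Q R DF Cb G K := by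
  filter_upwards [ev_num hκ R DF Cb G, ev_test hκ H (good_exponent hκ hτ hirr H.hQ)] with K h1 h2
  exact ⟨h1.1, h1.2.1, h1.2.2.1, h1.2.2.2.1, h1.2.2.2.2.1, h1.2.2.2.2.2, h2⟩

/-- the data of the stage with the bases `θ 0, …, θ σ` -/
structure SD (κ : ℕ) (θ : ℕ → ℝ) (σ : ℕ) where
  g : ℕ
  τ : ℕ → ℝ
  cl : ℕ → ℕ
  e : ℕ → ℕ
  Q : ℕ
  R : ℕ
  CF : ℕ
  DF : ℕ
  Cb : ℕ
  G : ℕ
  H : Cst τ g Q R CF DF Cb G
  big : ∀ᶠ K : ℕ in atTop, Big κ τ g Q R DF Cb G K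
  hcl : ∀ i ≤ σ, cl i < g
  he : ∀ i ≤ σ, 1 ≤ e i
  heQ : ∀ i ≤ σ, e i ∣ Q
  hθ : ∀ i ≤ σ, θ i = τ (cl i) ^ e i

theorem exists_SD {κ : ℕ} (hκ : 1 ≤ κ) {θ : ℕ → ℝ} (hθ : ∀ i, 1 < θ i ∧ Dioph (θ i) κ) (σ : ℕ) : Nonempty (SD κ θ σ) := by
  obtain ⟨g, τ, cl, e, h1, h2, h3⟩ := generators hκ θ (σ + 1) (fun i _ => hθ i)
  have hg : 1 ≤ g := by have := (h3 0 (by omega)).1; omega
  have hQ : 1 ≤ ∏ i ∈ Finset.range (σ + 1), e i :=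
    Nat.one_le_iff_ne_zero.2 (Finset.prod_ne_zero_iff.2 fun i hi => by
      have := (h3 i (Finset.mem_range.1 hi)).2.1
      omega)
  obtain ⟨R, CF, DF, Cb, G, -, H⟩ := exists_cst hg hQ (fun h hh => (h1 h hh).1)
  exact ⟨⟨g, τ, cl, e, _, R, CF, DF, Cb, G, H, ev_big hκ H h1 h2, fun i hi => (h3 i (by omega)).1,
    fun i hi => (h3 i (by omega)).2.1, fun i hi => Finset.dvd_prod_of_mem e (Finset.mem_range.2 (by omega)),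
    fun i hi => (h3 i (by omega)).2.2⟩⟩

/-- the boundaries of the stages -/
theorem exists_ks (thr : ℕ → ℕ) {K₀ : ℕ} (h0 : thr 0 ≤ K₀) :
    ∃ ks : ℕ → ℕ, ks 0 = 0 ∧ StrictMono ks ∧ ∀ σ, ∀ k, ks σ ≤ k → thr σ ≤ Kk K₀ k := by
  have h1 : ∀ t : ℕ, ∃ m : ℕ, ∀ k ≥ m, t ≤ Kk K₀ k := fun t => by
    obtain ⟨m, hm⟩ := eventually_atTop.1 ((Kk_tendsto K₀).eventually (eventually_ge_atTop t))
    exact ⟨m, hm⟩
  choose m hm using h1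
  let ks : ℕ → ℕ := fun σ => Nat.rec 0 (fun σ r => max (r + 1) (m (thr (σ + 1)))) σ
  have hs : ∀ σ, ks (σ + 1) = max (ks σ + 1) (m (thr (σ + 1))) := fun σ => rfl
  refine ⟨ks, rfl, strictMono_nat_of_lt_succ fun σ => ?_, fun σ k hk => ?_⟩
  · rw [hs]
    exact lt_of_lt_of_le (Nat.lt_succ_self _) (le_max_left _ _)
  · rcases σ with _ | σ
    · exact h0.trans (Kk_ge K₀ k)
    · rw [hs] at hk
      exact hm _ _ ((le_max_right _ _).trans hk)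

theorem exists_stage {ks : ℕ → ℕ} (h0 : ks 0 = 0) (hks : StrictMono ks) (k : ℕ) : ∃ σ, ks σ ≤ k ∧ k < ks (σ + 1) := by
  have h1 : ∃ σ, k < ks (σ + 1) := ⟨k, lt_of_lt_of_le (Nat.lt_succ_self k) (hks.id_le (k + 1))⟩
  classical
  refine ⟨Nat.find h1, ?_, Nat.find_spec h1⟩
  rcases Nat.eq_zero_or_pos (Nat.find h1) with h2 | h2
  · rw [h2, h0]; exact Nat.zero_le _
  · have h3 := Nat.find_min h1 (m := Nat.find h1 - 1) (by omega)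
    rw [Nat.sub_add_cancel h2] at h3
    exact not_lt.1 h3

section

variable {κ : ℕ} {θ : ℕ → ℝ}

/-- a good window of level `k` -/
def GoodM (D : ∀ σ, SD κ θ σ) (c : ℝ → ℝ) (K₀ : ℕ) (ℓ₀ : ℝ) (ks : ℕ → ℕ) (k : ℕ) (a : ℝ) : Prop :=
  ∀ σ, ks σ < k → k ≤ ks (σ + 1) →
    GoodF (D σ).τ c (D σ).g (D σ).Q (D σ).R (D σ).G κ (ll κ K₀ ℓ₀ (ks σ)) (Kk K₀ k) a (ll κ K₀ ℓ₀ k)

theorem good_at {D : ∀ σ, SD κ θ σ} {c : ℝ → ℝ} {K₀ : ℕ} {ℓ₀ : ℝ} (hℓ₀ : 0 < ℓ₀) {ks : ℕ → ℕ}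
    (hbig : ∀ σ, ∀ k, ks σ ≤ k → Big κ (D σ).τ (D σ).g (D σ).Q (D σ).R (D σ).DF (D σ).Cb (D σ).G (Kk K₀ k))
    {k : ℕ} {a : ℝ} (h : GoodM D c K₀ ℓ₀ ks k a) {σ : ℕ} (h1 : ks σ ≤ k) (h2 : k ≤ ks (σ + 1)) :
    GoodF (D σ).τ c (D σ).g (D σ).Q (D σ).R (D σ).G κ (ll κ K₀ ℓ₀ (ks σ)) (Kk K₀ k) a (ll κ K₀ ℓ₀ k) := by
  rcases eq_or_lt_of_le h1 with h3 | h3
  · rw [← h3]
    exact stage_start (D σ).H (hbig σ _ le_rfl) c (ll_pos hℓ₀ K₀ _)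
  · exact h σ h3 h2

/-- one block -/
theorem good_stepM {D : ∀ σ, SD κ θ σ} {c : ℝ → ℝ} {K₀ : ℕ} {ℓ₀ : ℝ} (hℓ₀ : 0 < ℓ₀) (hℓ₀1 : ℓ₀ ≤ 1) {ks : ℕ → ℕ} (h0 : ks 0 = 0) (hks : StrictMono ks)
    (hbig : ∀ σ, ∀ k, ks σ ≤ k → Big κ (D σ).τ (D σ).g (D σ).Q (D σ).R (D σ).DF (D σ).Cb (D σ).G (Kk K₀ k))
    (k : ℕ) (a : ℝ) (h : GoodM D c K₀ ℓ₀ ks k a) :
    (1 / 2 : ℝ) ^ (3 * Kk K₀ k) * ((2 ^ (Kk K₀ k ^ (2 * κ + 1)) : ℕ) : ℝ) ≤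
      (by classical exact (((Finset.range (2 ^ (Kk K₀ k ^ (2 * κ + 1)))).filter fun b : ℕ =>
        GoodM D c K₀ ℓ₀ ks (k + 1) (a + b * ll κ K₀ ℓ₀ (k + 1))).card : ℝ)) := by
  classical
  obtain ⟨σ, hσ1, hσ2⟩ := exists_stage h0 hks k
  have hℓk := ll_pos (κ := κ) hℓ₀ K₀ k
  have h1 := good_at hℓ₀ hbig h hσ1 hσ2.le
  have hst : ll κ K₀ ℓ₀ (ks σ) ≤ 1 := by
    have h2 := ll_anti (κ := κ) hℓ₀ K₀ (Nat.zero_le (ks σ))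
    have h3 : ll κ K₀ ℓ₀ 0 = ℓ₀ := by unfold ll; simp
    linarith
  have h2 := stage_step (D σ).H (hbig σ k hσ1) (hbig σ (k + 1) (hσ1.trans (Nat.le_succ k))) (Kk_succ K₀ k) c hℓk
    (ll_anti hℓ₀ K₀ hσ1) hst (fun s hs => tm_stage (D σ).H hℓ₀ K₀ hs hσ1) h1
  refine h2.trans ?_
  have h3 : ((Finset.range (2 ^ (Kk K₀ k ^ (2 * κ + 1)))).filter fun b : ℕ =>
      GoodF (D σ).τ c (D σ).g (D σ).Q (D σ).R (D σ).G κ (ll κ K₀ ℓ₀ (ks σ)) (Kk K₀ (k + 1))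
        (a + b * (ll κ K₀ ℓ₀ k / (2 ^ (Kk K₀ k ^ (2 * κ + 1)) : ℕ))) (ll κ K₀ ℓ₀ k / (2 ^ (Kk K₀ k ^ (2 * κ + 1)) : ℕ))) ⊆
      ((Finset.range (2 ^ (Kk K₀ k ^ (2 * κ + 1)))).filter fun b : ℕ => GoodM D c K₀ ℓ₀ ks (k + 1) (a + b * ll κ K₀ ℓ₀ (k + 1))) := by
    intro b hb
    rw [Finset.mem_filter] at hb ⊢
    refine ⟨hb.1, fun σ' e1 e2 => ?_⟩
    have e3 : σ' = σ := by
      rcases lt_trichotomy σ' σ with e | e | e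
      · have := hks.monotone (show σ' + 1 ≤ σ by omega)
        omega
      · exact e
      · have := hks.monotone (show σ + 1 ≤ σ' by omega)
        omega
    subst e3
    have e4 : ll κ K₀ ℓ₀ (k + 1) = ll κ K₀ ℓ₀ k / (2 ^ (Kk K₀ k ^ (2 * κ + 1)) : ℕ) := by
      rw [ll_succ]
      push_cast
      rfl
    rw [e4]
    exact hb.2
  have h4 := Finset.card_le_card h3
  convert (Nat.cast_le (α := ℝ)).2 h4 using 2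

/-- the discrepancy over one stage, for one base -/
theorem stage_sum (D : ∀ σ, SD κ θ σ) (c : ℝ → ℝ) {K₀ : ℕ} {ℓ₀ : ℝ} (hℓ₀ : 0 < ℓ₀) {ks : ℕ → ℕ}
    (hbig : ∀ σ, ∀ k, ks σ ≤ k → Big κ (D σ).τ (D σ).g (D σ).Q (D σ).R (D σ).DF (D σ).Cb (D σ).G (Kk K₀ k))
    (hθ : ∀ i, 1 < θ i) {x : ℝ} (hx : ∀ k, ∃ a, GoodM D c K₀ ℓ₀ ks k a ∧ x ∈ Icc a (a + ll κ K₀ ℓ₀ k))
    {i σ : ℕ} (hi : i ≤ σ) {k : ℕ} (h1 : ks σ ≤ k) (h2 : k ≤ ks (σ + 1)) {α γ : ℝ} (hα : 0 ≤ α) (hαγ : α ≤ γ) (hγ : γ ≤ 1) :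
    |(((Finset.Ico (nu κ K₀ ℓ₀ (θ i) (ks σ)) (nu κ K₀ ℓ₀ (θ i) k)).filter fun n : ℕ =>
        α ≤ Int.fract (x * θ i ^ n + c (θ i ^ n)) ∧ Int.fract (x * θ i ^ n + c (θ i ^ n)) < γ).card : ℝ) -
      ((nu κ K₀ ℓ₀ (θ i) k : ℝ) - nu κ K₀ ℓ₀ (θ i) (ks σ)) * (γ - α)| ≤
      (140000 * (D σ).G * (D σ).Q : ℕ) * (Kk K₀ k : ℝ) ^ (2 * κ + 4) := by
  obtain ⟨a, hg, hxa⟩ := hx k
  have hgood := good_at hℓ₀ hbig hg h1 h2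
  have hH := (D σ).H
  have hθi := (D σ).hθ i hi
  have hcl := (D σ).hcl i hi
  have hτ1 := hH.hτ _ hcl
  have hQ := hH.hQ
  have h3 := class_sum hτ1 ((D σ).he i hi) hQ ((D σ).heQ i hi) x c (ll_pos hℓ₀ K₀ k) (ll_anti (κ := κ) hℓ₀ K₀ h1)
    (E := 140000 * (D σ).G * (Kk K₀ k : ℝ) ^ (2 * κ + 4)) (by positivity)
    (fun e he _ => by
      have hs : (D σ).Q * (D σ).cl i + e < (D σ).g * (D σ).Q := by
        calc (D σ).Q * (D σ).cl i + e < (D σ).Q * (D σ).cl i + (D σ).Q := by omega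
          _ = (D σ).Q * ((D σ).cl i + 1) := by ring
          _ ≤ (D σ).Q * (D σ).g := Nat.mul_le_mul_left _ hcl
          _ = _ := by ring
      have e1 : ((D σ).Q * (D σ).cl i + e) / (D σ).Q = (D σ).cl i := by
        rw [Nat.mul_add_div (by omega), Nat.div_eq_of_lt he, add_zero]
      have e2 : ((D σ).Q * (D σ).cl i + e) % (D σ).Q = e := by
        rw [Nat.mul_add_mod, Nat.mod_eq_of_lt he]
      have h4 := stage_disc hH (hbig σ k h1) c (ll_pos hℓ₀ K₀ k) (ll_anti (κ := κ) hℓ₀ K₀ h1) hs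
        (tm_stage hH hℓ₀ K₀ hs h1) hgood hxa
      have e3 : ∀ j, fr (D σ).τ (D σ).Q ((D σ).Q * (D σ).cl i + e) j = (D σ).τ ((D σ).cl i) ^ ((D σ).Q * j + e) := fun j => by
        unfold fr
        rw [e1, e2]
      have e4 : ∀ ℓ, tm (D σ).τ (D σ).Q ((D σ).Q * (D σ).cl i + e) ℓ = sInf {j : ℕ | 1 ≤ (D σ).τ ((D σ).cl i) ^ ((D σ).Q * j + e) * ℓ} := fun ℓ => by
        unfold tm
        simp only [e3]
      unfold Us lin at h4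
      simp only [e3, e4] at h4
      exact h4) hα hαγ hγ
  unfold nu
  rw [hθi]
  refine h3.trans (le_of_eq ?_)
  push_cast
  ring

end

/-- **nearly optimal discrepancy for countably many bases at once** -/
theorem main3_ge {κ : ℕ} (hκ : 1 ≤ κ) {θ : ℕ → ℝ} (hθ : ∀ i, 1 < θ i ∧ Dioph (θ i) κ) (c : ℝ → ℝ) {O : Set ℝ} (hO : IsOpen O) (hne : O.Nonempty)
    {s : ℝ} (hs : 0 < s) (hs1 : s < 1) :
    ENNReal.ofReal s ≤ dimH {ξ | ξ ∈ O ∧ ∀ i, ∃ N₀ : ℕ, ∀ N ≥ N₀, DiscLe (fun n => ξ * θ i ^ n + c (θ i ^ n)) N (Real.log N ^ (2 * κ + 6))} := by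
  classical
  -- the starting window
  obtain ⟨x₀, hx₀⟩ := hne
  obtain ⟨ρ, hρ, hball⟩ := Metric.isOpen_iff.1 hO x₀ hx₀
  obtain ⟨ℓ₀, hℓ₀⟩ : ∃ ℓ₀ : ℝ, ℓ₀ = min 1 (ρ / 2) := ⟨_, rfl⟩
  have hℓ₀pos : 0 < ℓ₀ := by rw [hℓ₀]; positivity
  have hℓ₀1 : ℓ₀ ≤ 1 := by rw [hℓ₀]; exact min_le_left _ _
  have hℓ₀ρ : ℓ₀ ≤ ρ / 2 := by rw [hℓ₀]; exact min_le_right _ _
  have hsub : Icc x₀ (x₀ + ℓ₀) ⊆ O := by
    intro x hx
    refine hball ?_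
    rw [Metric.mem_ball, Real.dist_eq, abs_of_nonneg (by linarith [hx.1])]
    linarith [hx.2]
  -- the stages
  have hSD := exists_SD hκ hθ
  let D : ∀ σ, SD κ θ σ := fun σ => (hSD σ).some
  have hthr : ∀ σ, ∃ t : ℕ, ∀ K ≥ t, Big κ (D σ).τ (D σ).g (D σ).Q (D σ).R (D σ).DF (D σ).Cb (D σ).G K ∧
      ∑ σ' ∈ Finset.range (σ + 1), (140000 * (D σ').G * (D σ').Q) ≤ K := fun σ =>
    eventually_atTop.1 ((D σ).big.and (eventually_ge_atTop _))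
  choose thr hthr using hthr
  obtain ⟨K₀, hK₀⟩ : ∃ K₀, K₀ = max (thr 0) 1 := ⟨_, rfl⟩
  have hK₀1 : 1 ≤ K₀ := by rw [hK₀]; exact le_max_right _ _
  obtain ⟨ks, hks0, hksm, hks⟩ := exists_ks thr (K₀ := K₀) (by rw [hK₀]; exact le_max_left _ _)
  have hbig : ∀ σ, ∀ k, ks σ ≤ k → Big κ (D σ).τ (D σ).g (D σ).Q (D σ).R (D σ).DF (D σ).Cb (D σ).G (Kk K₀ k) :=
    fun σ k hk => (hthr σ _ (hks σ k hk)).1
  have hll0 : ll κ K₀ ℓ₀ 0 = ℓ₀ := by unfold ll; simp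
  have hdim := dim_homog (fun k => 2 ^ (Kk K₀ k ^ (2 * κ + 1))) (ll κ K₀ ℓ₀) (fun k => (1 / 2 : ℝ) ^ (3 * Kk K₀ k)) (GoodM D c K₀ ℓ₀ ks) x₀
    (fun k => Nat.one_le_two_pow) (ll_pos hℓ₀pos K₀ 0) (fun k => by rw [ll_succ]; push_cast; rfl) (ll_tendsto hℓ₀pos hK₀1)
    (fun k => by positivity) (fun k => pow_le_one₀ (by norm_num) (by norm_num)) (fun σ h _ => absurd h (Nat.not_lt_zero _))
    (fun k a hg => by
      have := good_stepM hℓ₀pos hℓ₀1 hks0 hksm hbig k a hg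
      convert this using 3) hs hs1 (mass_bound3 hκ hℓ₀pos K₀ hs hs1)
  refine hdim.trans (dimH_mono ?_)
  rintro x ⟨hx0, hx⟩
  rw [hll0] at hx0
  refine ⟨hsub hx0, fun i => ?_⟩
  obtain ⟨C₁, hC₁⟩ := nu_succ (κ := κ) hℓ₀pos (hθ i).1 K₀
  obtain ⟨C₂, hC₂⟩ := nu_ge (κ := κ) hℓ₀pos hℓ₀1 (hθ i).1 hK₀1
  exact asm (t := fun n => x * θ i ^ n + c (θ i ^ n)) (κ := κ) hK₀1 (nu_mono hℓ₀pos (hθ i).1 K₀) hC₁ hC₂ hksm
    (G := fun σ => 140000 * (D σ).G * (D σ).Q) (i := i) (fun σ _ => (hthr σ _ (hks σ _ le_rfl)).2)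
    (fun σ hσ k h1 h2 α γ hα hαγ hγ => stage_sum D c hℓ₀pos hbig (fun i => (hθ i).1) hx hσ h1 h2 hα hαγ hγ)

/-- **nearly optimal discrepancy for countably many bases at once** -/
theorem main3' {κ : ℕ} (hκ : 1 ≤ κ) (θ : ℕ → ℝ) (hθ : ∀ i, 1 < θ i ∧ Dioph (θ i) κ) (c : ℝ → ℝ) {O : Set ℝ} (hO : IsOpen O) (hne : O.Nonempty) :
    dimH {ξ | ξ ∈ O ∧ ∀ i, ∃ N₀ : ℕ, ∀ N ≥ N₀, DiscLe (fun n => ξ * θ i ^ n + c (θ i ^ n)) N (Real.log N ^ (2 * κ + 6))} = 1 := by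
  refine le_antisymm (dimH_le_one _) ?_
  have h1 : Tendsto (fun m : ℕ => ENNReal.ofReal (1 - 1 / ((m : ℝ) + 2))) atTop (𝓝 1) := by
    have h2 : Tendsto (fun m : ℕ => 1 - 1 / ((m : ℝ) + 2)) atTop (𝓝 (1 - 0)) := by
      refine Tendsto.sub tendsto_const_nhds ?_
      have h3 : Tendsto (fun m : ℕ => (m : ℝ) + 2) atTop atTop :=
        tendsto_natCast_atTop_atTop.atTop_add tendsto_const_nhds
      have h5 := tendsto_inv_atTop_zero.comp h3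
      refine h5.congr fun m => ?_
      rw [Function.comp_apply, one_div]
    rw [sub_zero] at h2
    have h4 := (ENNReal.continuous_ofReal.tendsto 1).comp h2
    rwa [ENNReal.ofReal_one] at h4
  refine le_of_tendsto h1 (Eventually.of_forall fun m => ?_)
  refine main3_ge hκ hθ c hO hne ?_ ?_
  · have : (1 : ℝ) / ((m : ℝ) + 2) < 1 := by
      rw [div_lt_one (by positivity)]
      have : (0 : ℝ) ≤ m := Nat.cast_nonneg m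
      linarith
    linarith
  · have : (0 : ℝ) < 1 / ((m : ℝ) + 2) := by positivity
    linarith

end Pool.Agent.Helper41.LD3
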