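import Pool.Agent.Helper41.LD3.Fr

/-!
# Project LD3: constants of a stage
-/

set_option autoImplicit false

namespace Pool.Agent.Helper41.LD3

open Set MeasureTheory Filter Topology
open Pool.Agent.Helper41.LD (av var ind haar idx DiscLe Dioph Kk)
open Pool.Agent.Helper41.LD2 (A M W Pot NB Wd EqA)

/-- the constants of a family -/
structure Cst (τ : ℕ → ℝ) (g Q R CF DF Cb G : ℕ) : Prop where
  hg : 1 ≤ g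
  hQ : 1 ≤ Q
  hτ : ∀ h < g, 1 < τ h
  hR1 : 1 ≤ R
  hR : ∀ h < g, (2 : ℝ) ^ 12 ≤ (τ h ^ Q) ^ R
  hCF1 : 1 ≤ CF
  hCF : ∀ h < g, 2 ≤ (τ h ^ Q) ^ CF
  hDF1 : 1 ≤ DF
  hDF : ∀ h < g, τ h ^ Q ≤ 2 ^ DF
  hCb1 : 1 ≤ Cb
  hCb : ∀ h < g, τ h ^ Q / (τ h ^ Q - 1) ≤ Cb
  hG : g * Q * Cb ^ 2 * CF ≤ G

/-- the requirements on one level -/
structure Big (κ : ℕ) (τ : ℕ → ℝ) (g Q R DF Cb G K : ℕ) : Prop where
  hK2 : 2 ≤ K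
  hCbK : Cb ≤ K
  hRD : DF * (3 * (R * K)) < K ^ (2 * κ + 1)
  hR2 : (R * K) ^ 2 ≤ K ^ (2 * κ + 1)
  hbig : 8192 * G * K * K ^ (2 * κ + 1) ≤ 2 ^ K
  hB : 12 * K ≤ K ^ (2 * κ + 1)
  hTT : ∃ (Q₀ : ℕ) (ε : ℝ), 0 ≤ ε ∧ ε ≤ (1 / 2) ^ (12 * K) ∧ ∀ h < g, ∀ e < Q, ∀ ℓ : ℝ, 0 < ℓ → ℓ ≤ 1 → ∃ u : ℕ, u % Q = e ∧
    ((Q₀ : ℝ) + 1) * 2 ^ (24 * K) ≤ τ h ^ u * ℓ ∧ τ h ^ u * (ℓ / 2 ^ (K ^ (2 * κ + 1))) ≤ 2 * (1 / 2) ^ (12 * K) ∧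
        ∀ h' < g, ∀ u' : ℕ, ¬ (h' = h ∧ u' = u) → (1 / 2 : ℝ) ^ (12 * K) < τ h' ^ u' / τ h ^ u → τ h' ^ u' / τ h ^ u < 2 ^ (12 * K) →
          (τ h' ^ u' ≤ τ h ^ u ∧ EqA (τ h ^ u / τ h' ^ u') Q₀ ε) ∨ (τ h ^ u ≤ τ h' ^ u' ∧ EqA (τ h' ^ u' / τ h ^ u) Q₀ ε)

theorem fin_max {P : ℕ → ℕ → Prop} (hmono : ∀ h n n' : ℕ, n ≤ n' → P h n → P h n') (g : ℕ) (h : ∀ i < g, ∃ n, P i n) :
    ∃ N, 1 ≤ N ∧ ∀ i < g, P i N := by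
  induction g with
  | zero => exact ⟨1, le_rfl, fun i hi => absurd hi (Nat.not_lt_zero _)⟩
  | succ g ih =>
    obtain ⟨N, hN1, hN⟩ := ih fun i hi => h i (by omega)
    obtain ⟨n, hn⟩ := h g (by omega)
    refine ⟨max N n, hN1.trans (le_max_left _ _), fun i hi => ?_⟩
    rcases Nat.lt_succ_iff_lt_or_eq.1 hi with h1 | h1
    · exact hmono i N _ (le_max_left _ _) (hN i h1)
    · rw [h1]
      exact hmono g n _ (le_max_right _ _) hn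

theorem exists_cst {τ : ℕ → ℝ} {g Q : ℕ} (hg : 1 ≤ g) (hQ : 1 ≤ Q) (hτ : ∀ h < g, 1 < τ h) :
    ∃ R CF DF Cb G : ℕ, 1 ≤ G ∧ Cst τ g Q R CF DF Cb G := by
  have hb : ∀ h < g, 1 < τ h ^ Q := fun h hh => one_lt_pow₀ (hτ h hh) (by omega)
  -- the predicates are monotone where the base is larger than one; restrict them by that
  obtain ⟨R, hR1, hR⟩ := fin_max (P := fun h n => 1 < τ h ^ Q → (2 : ℝ) ^ 12 ≤ (τ h ^ Q) ^ n)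
    (fun h n n' hn hP hb => (hP hb).trans (pow_le_pow_right₀ hb.le hn)) g
    (fun h hh => by
      obtain ⟨n, hn⟩ := pow_unbounded_of_one_lt ((2 : ℝ) ^ 12) (hb h hh)
      exact ⟨n, fun _ => hn.le⟩)
  obtain ⟨CF, hCF1, hCF⟩ := fin_max (P := fun h n => 1 < τ h ^ Q → (2 : ℝ) ≤ (τ h ^ Q) ^ n)
    (fun h n n' hn hP hb => (hP hb).trans (pow_le_pow_right₀ hb.le hn)) g
    (fun h hh => by
      obtain ⟨n, hn⟩ := pow_unbounded_of_one_lt (2 : ℝ) (hb h hh)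
      exact ⟨n, fun _ => hn.le⟩)
  obtain ⟨DF, hDF1, hDF⟩ := fin_max (P := fun h n => τ h ^ Q ≤ (2 : ℝ) ^ n)
    (fun h n n' hn hP => hP.trans (pow_le_pow_right₀ (by norm_num) hn)) g
    (fun h _ => by
      obtain ⟨n, hn⟩ := pow_unbounded_of_one_lt (τ h ^ Q) (show (1 : ℝ) < 2 by norm_num)
      exact ⟨n, hn.le⟩)
  obtain ⟨Cb, hCb1, hCb⟩ := fin_max (P := fun h n => τ h ^ Q / (τ h ^ Q - 1) ≤ (n : ℝ))
    (fun h n n' hn hP => hP.trans (by exact_mod_cast hn)) g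
    (fun h _ => exists_nat_ge _)
  have hG : 1 ≤ g * Q * Cb ^ 2 * CF :=
    Nat.mul_pos (Nat.mul_pos (Nat.mul_pos hg hQ) (Nat.pow_pos hCb1)) hCF1
  exact ⟨R, CF, DF, Cb, g * Q * Cb ^ 2 * CF, hG,
    ⟨hg, hQ, hτ, hR1, fun h hh => hR h hh (hb h hh), hCF1, fun h hh => hCF h hh (hb h hh), hDF1, hDF, hCb1, hCb, le_rfl⟩⟩

section

variable {κ : ℕ} {τ : ℕ → ℝ} {g Q R CF DF Cb G K K' : ℕ}

theorem Cst.lt (H : Cst τ g Q R CF DF Cb G) {s : ℕ} (hs : s < g * Q) : 1 < τ (s / Q) :=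
  H.hτ _ (Nat.div_lt_of_lt_mul (by rw [mul_comm]; exact hs))

theorem Cst.idx_lt {s : ℕ} (hs : s < g * Q) : s / Q < g := Nat.div_lt_of_lt_mul (by rw [mul_comm]; exact hs)

theorem Cst.G_ge (H : Cst τ g Q R CF DF Cb G) : g * Q ≤ G ∧ CF ≤ G ∧ Cb ≤ G ∧ 1 ≤ G := by
  have h := H.hG
  have h1 := H.hg
  have h2 := H.hQ
  have h3 := H.hCF1
  have h4 := H.hCb1
  have h5 : 1 ≤ g * Q := Nat.mul_pos h1 h2
  have h6 : 1 ≤ Cb ^ 2 := Nat.pow_pos h4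
  have h7 : Cb ≤ Cb ^ 2 := Nat.le_self_pow (by omega) Cb
  have h8 : g * Q ≤ g * Q * Cb ^ 2 := Nat.le_mul_of_pos_right _ h6
  have h9 : g * Q * Cb ^ 2 ≤ g * Q * Cb ^ 2 * CF := Nat.le_mul_of_pos_right _ h3
  have h10 : Cb ^ 2 ≤ g * Q * Cb ^ 2 := Nat.le_mul_of_pos_left _ h5
  have h11 : CF ≤ g * Q * Cb ^ 2 * CF := Nat.le_mul_of_pos_left _ (Nat.mul_pos h5 h6)
  refine ⟨by omega, by omega, by omega, by omega⟩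

theorem Us_measurable (τ : ℕ → ℝ) (c : ℝ → ℝ) (Q : ℕ) (ℓst : ℝ) (s j : ℕ) : Measurable (Us τ c Q ℓst s j) := by
  unfold Us lin
  fun_prop

theorem Big.Lam (B : Big κ τ g Q R DF Cb G K) : 1 ≤ K ^ (2 * κ + 1) ∧ R * K ≤ K ^ (2 * κ + 1) ∧ K ≤ K ^ (2 * κ + 1) := by
  have h2 := B.hK2
  have h3 := B.hR2
  have h4 : 1 ≤ K ^ (2 * κ + 1) := Nat.one_le_pow _ _ (by omega)
  refine ⟨h4, ?_, Nat.le_self_pow (by omega) K⟩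
  rcases Nat.eq_zero_or_pos (R * K) with h0 | h0
  · rw [h0]; exact Nat.zero_le _
  · exact (Nat.le_self_pow two_ne_zero _).trans h3

/-- the number of terms on a window is at most `4 ^ K` -/
theorem Big.count (H : Cst τ g Q R CF DF Cb G) (B : Big κ τ g Q R DF Cb G K) {n l : ℕ} (hn : n ≤ 2 ^ (K + 1) * (G * K ^ (2 * κ + 1)))
    (hl : l ≤ CF * K ^ (2 * κ + 1)) : n + l + R * K ≤ 2 ^ (2 * K) := by
  obtain ⟨hL1, hRL, hKL⟩ := B.Lam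
  obtain ⟨hmG, hCFG, hCbG, hG1⟩ := H.G_ge
  have hbig := B.hbig
  have hK2 := B.hK2
  set Λ := K ^ (2 * κ + 1) with hΛ
  have h1 : 8192 * (G * Λ) ≤ 2 ^ K := by
    calc 8192 * (G * Λ) ≤ 8192 * (G * Λ) * K := Nat.le_mul_of_pos_right _ (by omega)
      _ = 8192 * G * K * Λ := by ring
      _ ≤ _ := hbig
  have h2 : l ≤ G * Λ := hl.trans (Nat.mul_le_mul_right _ hCFG)
  have h3 : R * K ≤ G * Λ := hRL.trans (Nat.le_mul_of_pos_left _ hG1)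
  have h4 : (2 : ℕ) ^ (2 * K) = 2 ^ K * 2 ^ K := by rw [two_mul, pow_add]
  have h5 : 2 ^ (K + 1) * (G * Λ) = 2 ^ K * (2 * (G * Λ)) := by rw [pow_succ]; ring
  have h6 : 1 ≤ 2 ^ K := Nat.one_le_two_pow
  have h7 : G * Λ ≤ 2 ^ K * (G * Λ) := Nat.le_mul_of_pos_left _ h6
  have h8 : 2 ^ K * (8192 * (G * Λ)) ≤ 2 ^ K * 2 ^ K := Nat.mul_le_mul_left _ h1
  rw [h4]
  nlinarith

end

end Pool.Agent.Helper41.LD3
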