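import Pool.Agent.Helper41.LD2.Defs
import Pool.Agent.Helper41.LD.Seq

/-!
# Project LD3: nearly optimal discrepancy for countably many bases at once, definitions
-/

set_option autoImplicit false

namespace Pool.Agent.Helper41.LD3

open Set MeasureTheory
open Pool.Agent.Helper41.LD (av var ind haar idx DiscLe Dioph)
open Pool.Agent.Helper41.LD2 (A M W Pot NB Wd EqA)

/-- linear functions with the frequencies `y` -/
def lin (y c : ℕ → ℝ) (j : ℕ) (x : ℝ) : ℝ := y j * x + c j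

/-- the frequencies are positive and grow at least geometrically -/
structure Geo (y : ℕ → ℝ) (β : ℝ) : Prop where
  hβ : 1 < β
  pos : ∀ j, 0 < y j
  grow : ∀ j, β * y j ≤ y (j + 1)

/-- the frequencies of the class `s`: base `τ (s / Q)`, exponents `≡ s % Q` modulo `Q` -/
noncomputable def fr (τ : ℕ → ℝ) (Q s j : ℕ) : ℝ := τ (s / Q) ^ (Q * j + s % Q)

/-- the number of frequencies of the class `s` below `1 / ℓ` -/
noncomputable def tm (τ : ℕ → ℝ) (Q s : ℕ) (ℓ : ℝ) : ℕ := sInf {j : ℕ | 1 ≤ fr τ Q s j * ℓ}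

/-- the sequence of the class `s`, from the frequency `1 / ℓst` on -/
noncomputable def Us (τ : ℕ → ℝ) (c : ℝ → ℝ) (Q : ℕ) (ℓst : ℝ) (s : ℕ) : ℕ → ℝ → ℝ :=
  lin (fun j => fr τ Q s (tm τ Q s ℓst + j)) (fun j => c (fr τ Q s (tm τ Q s ℓst + j)))

/-- a good window of the stage -/
def GoodF (τ : ℕ → ℝ) (c : ℝ → ℝ) (g Q R G κ : ℕ) (ℓst : ℝ) (K : ℕ) (a ℓ : ℝ) : Prop :=
  (∀ s < g * Q, NB (Us τ c Q ℓst s) (tm τ Q s ℓ - tm τ Q s ℓst) (R * K) K a ℓ) ∧
  ∑ s ∈ Finset.range (g * Q), Pot (Us τ c Q ℓst s) (tm τ Q s ℓ - tm τ Q s ℓst) (R * K) K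
    (1 / (8192 * G * K * (K : ℝ) ^ (2 * κ + 1))) a ℓ ≤ 16 ^ K

end Pool.Agent.Helper41.LD3
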