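import Pool.Agent.Helper41.LD3.Fr
import Pool.Agent.Helper41.LD2.Main

/-!
# Project LD3: discrepancy on a good window, potential at the start
-/

set_option autoImplicit false

namespace Pool.Agent.Helper41.LD3

open Set MeasureTheory Filter Topology
open Pool.Agent.Helper41.LD (av var ind haar idx DiscLe Dioph DiscLe.mono)
open Pool.Agent.Helper41.LD2 (A M W Pot NB Wd EqA M_of_Pot card_idx_le)
open Pool.Agent.Helper65.LD.F (disc_of_haar)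
open Pool.Agent.Helper34.LD2 (M_le sum_sub_M)
open Pool.Agent.Helper88.LD2 (W_nonneg W_le)

variable {U : ℕ → ℝ → ℝ} {β : ℝ}

/-- the parameter `λ` -/
noncomputable def lamG (G K : ℕ) (Λ : ℝ) : ℝ := 1 / (8192 * G * K * Λ)

theorem lamG_pos {G K : ℕ} {Λ : ℝ} (hG : 1 ≤ G) (hK : 1 ≤ K) (hΛ : 1 ≤ Λ) : 0 < lamG G K Λ := by
  unfold lamG
  have : (0 : ℝ) < G := by exact_mod_cast hG
  have : (0 : ℝ) < K := by exact_mod_cast hK
  positivity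

theorem lamG_anti {G K K' : ℕ} {Λ Λ' : ℝ} (hG : 1 ≤ G) (hK : 1 ≤ K) (hΛ : 1 ≤ Λ) (hKK : K ≤ K') (hΛΛ : Λ ≤ Λ') :
    lamG G K' Λ' ≤ lamG G K Λ := by
  unfold lamG
  have h1 : (0 : ℝ) < G := by exact_mod_cast hG
  have h2 : (0 : ℝ) < K := by exact_mod_cast hK
  have h3 : (K : ℝ) ≤ K' := by exact_mod_cast hKK
  refine one_div_le_one_div_of_le (by positivity) ?_
  gcongr

/-- `λ x ≤ 1 / 2` if `x ≤ 4096 G K Λ` -/
theorem lamG_mul_le {G K : ℕ} {Λ x : ℝ} (hG : 1 ≤ G) (hK : 1 ≤ K) (hΛ : 1 ≤ Λ) (hx : x ≤ 4096 * G * K * Λ) :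
    lamG G K Λ * x ≤ 1 / 2 := by
  have h1 : (0 : ℝ) < G := by exact_mod_cast hG
  have h2 : (0 : ℝ) < K := by exact_mod_cast hK
  unfold lamG
  rw [div_mul_eq_mul_div, one_mul, div_le_iff₀ (by positivity)]
  linarith

theorem lamG_r {G K r : ℕ} {Λ : ℝ} (hG : 1 ≤ G) (hK : 1 ≤ K) (hΛ : 1 ≤ Λ) (hr : (r : ℝ) ≤ Λ) :
    4 * lamG G K Λ ^ 2 * (r : ℝ) ^ 2 ≤ 1 := by
  have h1 : (1 : ℝ) ≤ G := by exact_mod_cast hG
  have h2 : (1 : ℝ) ≤ K := by exact_mod_cast hK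
  have h3 : lamG G K Λ * r ≤ 1 / 2 := by
    refine lamG_mul_le hG hK hΛ ?_
    have h4 : (1 : ℝ) ≤ G * K := one_le_mul_of_one_le_of_one_le h1 h2
    have h5 : Λ ≤ (G * K) * Λ := le_mul_of_one_le_left (by linarith) h4
    have h6 : 0 ≤ (G * K) * Λ := by positivity
    calc (r : ℝ) ≤ Λ := hr
      _ ≤ (G * K) * Λ := h5
      _ ≤ 4096 * ((G * K) * Λ) := by linarith
      _ = _ := by ring
  have h4 : 0 ≤ lamG G K Λ * r := mul_nonneg (lamG_pos hG hK hΛ).le (Nat.cast_nonneg r)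
  calc 4 * lamG G K Λ ^ 2 * (r : ℝ) ^ 2 = 4 * (lamG G K Λ * r) ^ 2 := by ring
    _ ≤ 1 := by nlinarith

/-- the discrepancy on a window with a small potential -/
theorem disc3 (hβ : 1 < β) {n m r K G : ℕ} {Λ : ℝ} {a ℓ : ℝ} (hw : Wd U β n m a ℓ) (hK : 1 ≤ K) (hG : 1 ≤ G) (hΛ : 1 ≤ Λ)
    (hC : β / (β - 1) ≤ G * Λ) (hr : (r : ℝ) ≤ Λ) (hn : (n : ℝ) ≤ 2 ^ (K + 1) * (G * Λ))
    (hNB : NB U n r K a ℓ) (hPot : Pot U n r K (lamG G K Λ) a ℓ ≤ 16 ^ K) {x : ℝ} (hx : x ∈ Icc a (a + ℓ)) :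
    DiscLe (fun j => U j x) n (140000 * G * (K : ℝ) ^ 3 * Λ) := by
  have hKr : (1 : ℝ) ≤ K := by exact_mod_cast hK
  have hGr : (1 : ℝ) ≤ G := by exact_mod_cast hG
  have hlam := lamG_pos hG hK hΛ
  set E : ℝ := (3 * K + 1) / lamG G K Λ + 2 * r + β / (β - 1) with hE
  have hθ1 : 0 ≤ β / (β - 1) := div_nonneg (by linarith) (by linarith)
  have hE0 : 0 ≤ E := by positivity
  have h1 : ∀ k < K, ∀ i < 2 ^ k, |∑ j ∈ Finset.range n, haar k i (U j x)| ≤ E := by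
    intro k hk i hi
    have h2 := sum_sub_M hβ hw hNB hk i hx
    have h3 := M_of_Pot hw.pos hlam hPot hk hi
    have h4 : |∑ j ∈ Finset.range n, haar k i (U j x)| ≤ |∑ j ∈ Finset.range n, haar k i (U j x) - M U k i a ℓ| + |M U k i a ℓ| := by
      have := abs_add_le (∑ j ∈ Finset.range n, haar k i (U j x) - M U k i a ℓ) (M U k i a ℓ)
      rwa [sub_add_cancel] at this
    rw [hE]
    linarith
  refine (disc_of_haar (fun j => U j x) n K hE0 h1).mono ?_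
  set X : ℝ := G * (K : ℝ) ^ 3 * Λ with hX
  have hX0 : 0 ≤ X := by positivity
  have hGΛ : (G : ℝ) * Λ * 1 ≤ (G : ℝ) * Λ * (K : ℝ) ^ 3 := mul_le_mul_of_nonneg_left (one_le_pow₀ hKr) (by positivity)
  have hΛG : Λ ≤ (G : ℝ) * Λ := le_mul_of_one_le_left (by linarith) hGr
  have hK2 : (1 : ℝ) ≤ (K : ℝ) ^ 2 := one_le_pow₀ hKr
  have hGΛ2 : (G : ℝ) * Λ * 1 ≤ (G : ℝ) * Λ * (K : ℝ) ^ 2 := mul_le_mul_of_nonneg_left hK2 (by positivity)
  have i2 : (3 * (K : ℝ) + 1) / lamG G K Λ ≤ 32768 * (G * (K : ℝ) ^ 2 * Λ) := by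
    rw [div_eq_mul_one_div]
    have i1 : 1 / lamG G K Λ = 8192 * G * K * Λ := by unfold lamG; rw [one_div_one_div]
    rw [i1]
    calc (3 * (K : ℝ) + 1) * (8192 * G * K * Λ) ≤ (4 * K) * (8192 * G * K * Λ) := by gcongr; linarith
      _ = 32768 * (G * (K : ℝ) ^ 2 * Λ) := by ring
  have i5 : E ≤ 32771 * (G * (K : ℝ) ^ 2 * Λ) := by
    rw [hE]
    nlinarith
  have i6 : 2 * ((K : ℝ) + 1) * E ≤ 131084 * X := by
    calc 2 * ((K : ℝ) + 1) * E ≤ 4 * K * (32771 * (G * (K : ℝ) ^ 2 * Λ)) := by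
          refine mul_le_mul (by linarith) i5 hE0 (by positivity)
      _ = 131084 * X := by rw [hX]; ring
  have i7 : 2 * ((n : ℝ) * (1 / 2) ^ K) ≤ 4 * X := by
    calc 2 * ((n : ℝ) * (1 / 2) ^ K) ≤ 2 * ((2 ^ (K + 1) * (G * Λ)) * (1 / 2) ^ K) := by gcongr
      _ = 4 * (G * Λ) * (2 ^ K * (1 / 2) ^ K) := by rw [pow_succ]; ring
      _ = 4 * (G * Λ) := by rw [← mul_pow]; norm_num
      _ ≤ 4 * X := by
        rw [hX]
        nlinarith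
  have i8 : 140000 * G * (K : ℝ) ^ 3 * Λ = 140000 * X := by rw [hX]; ring
  rw [i8]
  linarith

/-- the potential at the start of a stage -/
theorem pot_start3 (hβ : 1 < β) {r m K G : ℕ} {Λ : ℝ} {a ℓ : ℝ} (hw : Wd U β 0 m a ℓ) (hK : 1 ≤ K) (hG : 1 ≤ G) (hΛ : 1 ≤ Λ)
    (hC : β / (β - 1) ≤ G * Λ) (hr : (r : ℝ) ≤ Λ) : Pot U 0 r K (lamG G K Λ) a ℓ ≤ 4 * 2 ^ K := by
  have hKr : (1 : ℝ) ≤ K := by exact_mod_cast hK
  have hGr : (1 : ℝ) ≤ G := by exact_mod_cast hG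
  have hlam := lamG_pos hG hK hΛ
  have h1 : ∀ p ∈ idx K, Real.cosh (lamG G K Λ * M U p.1 p.2 a ℓ) * (1 + 4 * lamG G K Λ ^ 2 * W U 0 r p.1 p.2 a ℓ) ≤ 4 := by
    intro p _
    have h2 := M_le hβ hw p.1 p.2
    rw [Nat.cast_zero, zero_add] at h2
    have h4 : |lamG G K Λ * M U p.1 p.2 a ℓ| ≤ 1 / 2 := by
      rw [abs_mul, abs_of_pos hlam]
      refine (mul_le_mul_of_nonneg_left h2 hlam.le).trans (lamG_mul_le hG hK hΛ ?_)
      have h5 : 0 ≤ (G : ℝ) * Λ := by positivity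
      have h6 : (G : ℝ) * Λ * 1 ≤ (G : ℝ) * Λ * K := mul_le_mul_of_nonneg_left hKr h5
      have h7 : 4096 * (G : ℝ) * K * Λ = 4096 * ((G : ℝ) * Λ * K) := by ring
      rw [h7]
      linarith
    have h5 : Real.cosh (lamG G K Λ * M U p.1 p.2 a ℓ) ≤ 2 := by
      rw [← Real.cosh_abs]
      have h6 := Real.cosh_le_exp_half_sq |lamG G K Λ * M U p.1 p.2 a ℓ|
      have h7 : |lamG G K Λ * M U p.1 p.2 a ℓ| ^ 2 / 2 ≤ 1 / 2 := by
        have := abs_nonneg (lamG G K Λ * M U p.1 p.2 a ℓ)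
        nlinarith
      have h8 : Real.exp (1 / 2) ≤ 2 := by
        have h9 : Real.exp (1 / 2) ^ 2 ≤ 2 ^ 2 := by
          rw [← Real.exp_nat_mul]
          norm_num
          have := Real.exp_one_lt_d9
          linarith
        exact le_of_sq_le_sq h9 (by norm_num)
      exact h6.trans ((Real.exp_le_exp.2 h7).trans h8)
    have h10 := W_le hw.meas 0 r p.1 p.2 a hw.pos
    have h11 : 4 * lamG G K Λ ^ 2 * W U 0 r p.1 p.2 a ℓ ≤ 1 :=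
      (mul_le_mul_of_nonneg_left h10 (by positivity)).trans (lamG_r hG hK hΛ hr)
    have h15 : 0 ≤ 4 * lamG G K Λ ^ 2 * W U 0 r p.1 p.2 a ℓ := by
      have := W_nonneg (U := U) 0 r p.1 p.2 a hw.pos
      positivity
    have h16 := Real.one_le_cosh (lamG G K Λ * M U p.1 p.2 a ℓ)
    nlinarith
  calc Pot U 0 r K (lamG G K Λ) a ℓ ≤ ∑ _p ∈ idx K, (4 : ℝ) := Finset.sum_le_sum h1
    _ = (idx K).card * 4 := by rw [Finset.sum_const, nsmul_eq_mul]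
    _ ≤ 4 * 2 ^ K := by
      have : ((idx K).card : ℝ) ≤ 2 ^ K := by exact_mod_cast card_idx_le K
      linarith

end Pool.Agent.Helper41.LD3
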