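import Pool.Agent.Helper41.LD3.Defs

/-!
# Project LD3: the frequencies of the classes
-/

set_option autoImplicit false

namespace Pool.Agent.Helper41.LD3

open Set MeasureTheory Filter Topology
open Pool.Agent.Helper41.LD (av var ind haar idx DiscLe Dioph)
open Pool.Agent.Helper41.LD2 (A M W Pot NB Wd EqA)

variable {τ : ℕ → ℝ} {Q s : ℕ}

theorem fr_pos (h : 1 < τ (s / Q)) (j : ℕ) : 0 < fr τ Q s j := pow_pos (by linarith) _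

theorem fr_add (j d : ℕ) : fr τ Q s (j + d) = fr τ Q s j * (τ (s / Q) ^ Q) ^ d := by
  unfold fr
  rw [← pow_mul, ← pow_add]
  congr 1
  ring

theorem base_gt (hQ : 1 ≤ Q) (h : 1 < τ (s / Q)) : 1 < τ (s / Q) ^ Q := one_lt_pow₀ h (by omega)

theorem fr_geo (hQ : 1 ≤ Q) (h : 1 < τ (s / Q)) (J : ℕ) : Geo (fun j => fr τ Q s (J + j)) (τ (s / Q) ^ Q) := by
  refine ⟨base_gt hQ h, fun j => fr_pos h _, fun j => le_of_eq ?_⟩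
  show τ (s / Q) ^ Q * fr τ Q s (J + j) = fr τ Q s (J + (j + 1))
  rw [← add_assoc, fr_add (J + j) 1, pow_one, mul_comm]

theorem fr_mono (hQ : 1 ≤ Q) (h : 1 < τ (s / Q)) {i j : ℕ} (hij : i ≤ j) : fr τ Q s i ≤ fr τ Q s j := by
  obtain ⟨d, rfl⟩ := Nat.exists_eq_add_of_le hij
  rw [fr_add]
  exact le_mul_of_one_le_right (fr_pos h i).le (one_le_pow₀ (base_gt hQ h).le)

theorem tm_exists (hQ : 1 ≤ Q) (h : 1 < τ (s / Q)) {ℓ : ℝ} (hℓ : 0 < ℓ) : {j : ℕ | 1 ≤ fr τ Q s j * ℓ}.Nonempty := by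
  obtain ⟨n, hn⟩ := pow_unbounded_of_one_lt (1 / (fr τ Q s 0 * ℓ)) (base_gt hQ h)
  refine ⟨0 + n, ?_⟩
  show 1 ≤ fr τ Q s (0 + n) * ℓ
  rw [fr_add]
  have h1 : 0 < fr τ Q s 0 * ℓ := mul_pos (fr_pos h 0) hℓ
  rw [div_lt_iff₀ h1] at hn
  calc (1 : ℝ) ≤ (τ (s / Q) ^ Q) ^ n * (fr τ Q s 0 * ℓ) := hn.le
    _ = _ := by ring

theorem tm_spec (hQ : 1 ≤ Q) (h : 1 < τ (s / Q)) {ℓ : ℝ} (hℓ : 0 < ℓ) : 1 ≤ fr τ Q s (tm τ Q s ℓ) * ℓ :=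
  Nat.sInf_mem (tm_exists hQ h hℓ)

theorem lt_tm {ℓ : ℝ} {j : ℕ} (hj : j < tm τ Q s ℓ) : fr τ Q s j * ℓ < 1 :=
  not_le.1 fun hle => absurd (Nat.sInf_le (s := {j : ℕ | 1 ≤ fr τ Q s j * ℓ}) hle) (not_le.2 hj)

theorem tm_le {ℓ : ℝ} {j : ℕ} (hj : 1 ≤ fr τ Q s j * ℓ) : tm τ Q s ℓ ≤ j :=
  Nat.sInf_le (s := {j : ℕ | 1 ≤ fr τ Q s j * ℓ}) hj

theorem tm_gt (hQ : 1 ≤ Q) (h : 1 < τ (s / Q)) {ℓ : ℝ} (hℓ : 0 < ℓ) {j : ℕ} (hj : fr τ Q s j * ℓ < 1) : j < tm τ Q s ℓ := by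
  by_contra hcon
  have h1 := fr_mono hQ h (not_lt.1 hcon)
  have h2 := tm_spec hQ h hℓ
  have h3 : fr τ Q s (tm τ Q s ℓ) * ℓ ≤ fr τ Q s j * ℓ := mul_le_mul_of_nonneg_right h1 hℓ.le
  linarith

theorem tm_mono (hQ : 1 ≤ Q) (h : 1 < τ (s / Q)) {ℓ ℓ' : ℝ} (hℓ' : 0 < ℓ') (hle : ℓ' ≤ ℓ) : tm τ Q s ℓ ≤ tm τ Q s ℓ' := by
  refine tm_le ((tm_spec hQ h hℓ').trans ?_)
  exact mul_le_mul_of_nonneg_left hle (fr_pos h _).le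

/-- upper bound for the number of steps in one block -/
theorem tm_block_le (hQ : 1 ≤ Q) (h : 1 < τ (s / Q)) {CF : ℕ} (hCF : 2 ≤ (τ (s / Q) ^ Q) ^ CF) {ℓ : ℝ} (hℓ : 0 < ℓ) (Λ : ℕ) :
    tm τ Q s (ℓ / 2 ^ Λ) ≤ tm τ Q s ℓ + CF * Λ := by
  refine tm_le ?_
  rw [fr_add, pow_mul]
  have h1 := tm_spec hQ h hℓ
  have h2 : (2 : ℝ) ^ Λ ≤ ((τ (s / Q) ^ Q) ^ CF) ^ Λ := pow_le_pow_left₀ (by norm_num) hCF Λ
  have h3 : (0 : ℝ) < 2 ^ Λ := by positivity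
  have h4 : fr τ Q s (tm τ Q s ℓ) * ((τ (s / Q) ^ Q) ^ CF) ^ Λ * (ℓ / 2 ^ Λ) =
      (fr τ Q s (tm τ Q s ℓ) * ℓ) * (((τ (s / Q) ^ Q) ^ CF) ^ Λ / 2 ^ Λ) := by ring
  rw [h4]
  exact one_le_mul_of_one_le_of_one_le h1 ((one_le_div h3).2 h2)

theorem fr_tm_lt (hQ : 1 ≤ Q) (h : 1 < τ (s / Q)) {ℓ : ℝ} (hℓ : 0 < ℓ) (hℓ1 : ℓ ≤ 1) : fr τ Q s (tm τ Q s ℓ) * ℓ ≤ τ (s / Q) ^ Q := by
  rcases Nat.eq_zero_or_pos (tm τ Q s ℓ) with h0 | h0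
  · rw [h0]
    unfold fr
    have h1 : τ (s / Q) ^ (Q * 0 + s % Q) ≤ τ (s / Q) ^ Q := pow_le_pow_right₀ h.le (by
      have := Nat.mod_lt s (show 0 < Q by omega)
      omega)
    calc τ (s / Q) ^ (Q * 0 + s % Q) * ℓ ≤ τ (s / Q) ^ Q * 1 :=
          mul_le_mul h1 hℓ1 hℓ.le (pow_nonneg (by linarith) _)
      _ = _ := mul_one _
  · obtain ⟨j, hj⟩ := Nat.exists_eq_succ_of_ne_zero (by omega : tm τ Q s ℓ ≠ 0)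
    have h1 := lt_tm (show j < tm τ Q s ℓ by omega)
    rw [hj]
    show fr τ Q s (j + 1) * ℓ ≤ _
    rw [fr_add, pow_one]
    have h2 : 0 < τ (s / Q) ^ Q := pow_pos (by linarith) _
    calc fr τ Q s j * τ (s / Q) ^ Q * ℓ = (fr τ Q s j * ℓ) * τ (s / Q) ^ Q := by ring
      _ ≤ 1 * τ (s / Q) ^ Q := mul_le_mul_of_nonneg_right h1.le h2.le
      _ = _ := one_mul _

/-- lower bound for the number of steps in one block -/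
theorem tm_block_ge (hQ : 1 ≤ Q) (h : 1 < τ (s / Q)) {DF : ℕ} (hDF : τ (s / Q) ^ Q ≤ 2 ^ DF) {ℓ : ℝ} (hℓ : 0 < ℓ) (hℓ1 : ℓ ≤ 1) {Λ x : ℕ}
    (hx : DF * x < Λ) : tm τ Q s ℓ + x ≤ tm τ Q s (ℓ / 2 ^ Λ) := by
  rcases Nat.eq_zero_or_pos x with h0 | h0
  · rw [h0, add_zero]
    exact tm_mono hQ h (by positivity) (div_le_self hℓ.le (one_le_pow₀ (by norm_num)))
  · have h1 : tm τ Q s ℓ + (x - 1) < tm τ Q s (ℓ / 2 ^ Λ) := by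
      refine tm_gt hQ h (by positivity) ?_
      rw [fr_add]
      have h2 := fr_tm_lt hQ h hℓ hℓ1
      have h3 : (0 : ℝ) < 2 ^ Λ := by positivity
      have h4 : fr τ Q s (tm τ Q s ℓ) * (τ (s / Q) ^ Q) ^ (x - 1) * (ℓ / 2 ^ Λ) =
          ((fr τ Q s (tm τ Q s ℓ) * ℓ) * (τ (s / Q) ^ Q) ^ (x - 1)) / 2 ^ Λ := by ring
      have h5 : 0 < τ (s / Q) ^ Q := pow_pos (by linarith) _
      rw [h4, div_lt_one h3]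
      calc (fr τ Q s (tm τ Q s ℓ) * ℓ) * (τ (s / Q) ^ Q) ^ (x - 1) ≤ τ (s / Q) ^ Q * (τ (s / Q) ^ Q) ^ (x - 1) :=
            mul_le_mul_of_nonneg_right h2 (by positivity)
        _ = (τ (s / Q) ^ Q) ^ x := by rw [← pow_succ']; congr 1; omega
        _ ≤ (2 ^ DF) ^ x := pow_le_pow_left₀ h5.le hDF x
        _ = 2 ^ (DF * x) := (pow_mul _ _ _).symm
        _ < 2 ^ Λ := pow_lt_pow_right₀ (by norm_num) hx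
    omega

end Pool.Agent.Helper41.LD3
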