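import Pool.Agent.Helper41.LD3.Disc
import Pool.Agent.Helper41.LD3.Cst
import Pool.Agent.Helper9.LD3.S3
import Pool.Agent.Helper5.LD3.LIN
import Pool.Agent.Helper8.LD3.Nb3
import Pool.Agent.Helper36.LD3.T
import Pool.Agent.Helper65.LD3.PC3

/-!
# Project LD3: one stage
-/

set_option autoImplicit false

namespace Pool.Agent.Helper41.LD3

open Set MeasureTheory Filter Topology
open Pool.Agent.Helper41.LD (av var ind haar idx DiscLe Dioph DiscLe.mono)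
open Pool.Agent.Helper41.LD2 (A M W Pot NB Wd EqA)
open Pool.Agent.Helper9.LD3 (step3)
open Pool.Agent.Helper5.LD3 (lin_Wd lin_cov)
open Pool.Agent.Helper8.LD3 (lin_nb)
open Pool.Agent.Helper36.LD3 (trans3)
open Pool.Agent.Helper65.LD3 (pair_corr3 pair_corr_same)

section

variable {κ : ℕ} {τ : ℕ → ℝ} {g Q R CF DF Cb G K K' : ℕ}

/-- window of the class `s` -/
theorem Us_Wd (H : Cst τ g Q R CF DF Cb G) (c : ℝ → ℝ) {ℓst ℓ a : ℝ} (hℓ : 0 < ℓ) (hst : ℓ ≤ ℓst) {s : ℕ} (hs : s < g * Q) (m : ℕ) :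
    Wd (Us τ c Q ℓst s) (τ (s / Q) ^ Q) (tm τ Q s ℓ - tm τ Q s ℓst) m a ℓ := by
  have h1 := H.lt hs
  refine lin_Wd (fr_geo H.hQ h1 _) hℓ ?_
  show 1 ≤ fr τ Q s (tm τ Q s ℓst + (tm τ Q s ℓ - tm τ Q s ℓst)) * ℓ
  have h2 := tm_mono H.hQ h1 hℓ hst
  rw [Nat.add_sub_cancel' h2]
  exact tm_spec H.hQ h1 hℓ

theorem div_mod_inj {Q s s' : ℕ} (h1 : s / Q = s' / Q) (h2 : s % Q = s' % Q) : s = s' := by
  rw [← Nat.div_add_mod s Q, ← Nat.div_add_mod s' Q, h1, h2]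

/-- the pair correlations of the family -/
theorem stage_PC (H : Cst τ g Q R CF DF Cb G) (B : Big κ τ g Q R DF Cb G K) (c : ℝ → ℝ) {ℓst ℓ a : ℝ} (hℓ : 0 < ℓ) (hst : ℓ ≤ ℓst)
    (hst1 : ℓst ≤ 1) (hT : ∀ s < g * Q, tm τ Q s ℓ - tm τ Q s ℓst + (tm τ Q s (ℓ / 2 ^ (K ^ (2 * κ + 1))) - tm τ Q s ℓ) + R * K ≤ 2 ^ (2 * K)) :
    ∃ t : ℕ → ℕ, ∀ s < g * Q, ∀ s' < g * Q, ∀ k < K, ∀ i < 2 ^ k, ∀ k' < K, ∀ i' < 2 ^ k',
      |(∑ b ∈ Finset.range (2 ^ (K ^ (2 * κ + 1))), (M (Us τ c Q ℓst s) k i (a + b * (ℓ / (2 ^ (K ^ (2 * κ + 1)) : ℕ))) (ℓ / (2 ^ (K ^ (2 * κ + 1)) : ℕ)) -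
          M (Us τ c Q ℓst s) k i a ℓ) * A (Us τ c Q ℓst s') k' i' (t s') (a + b * (ℓ / (2 ^ (K ^ (2 * κ + 1)) : ℕ))) (ℓ / (2 ^ (K ^ (2 * κ + 1)) : ℕ))) / (2 ^ (K ^ (2 * κ + 1)) : ℕ) -
        (if s = s' ∧ k = k' ∧ i = i' then (1 / 2) ^ k else 0)| ≤ (1 / 2) ^ (4 * K) := by
  obtain ⟨Q₀, ε, hε0, hε, hTT⟩ := B.hTT
  have hQ := H.hQ
  set Λ : ℕ := K ^ (2 * κ + 1) with hΛ
  have hex : ∀ s : ℕ, ∃ u : ℕ, s < g * Q → u % Q = s % Q ∧
      ((Q₀ : ℝ) + 1) * 2 ^ (24 * K) ≤ τ (s / Q) ^ u * ℓ ∧ τ (s / Q) ^ u * (ℓ / 2 ^ Λ) ≤ 2 * (1 / 2) ^ (12 * K) ∧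
        ∀ h' < g, ∀ u' : ℕ, ¬ (h' = s / Q ∧ u' = u) → (1 / 2 : ℝ) ^ (12 * K) < τ h' ^ u' / τ (s / Q) ^ u → τ h' ^ u' / τ (s / Q) ^ u < 2 ^ (12 * K) →
          (τ h' ^ u' ≤ τ (s / Q) ^ u ∧ EqA (τ (s / Q) ^ u / τ h' ^ u') Q₀ ε) ∨ (τ (s / Q) ^ u ≤ τ h' ^ u' ∧ EqA (τ h' ^ u' / τ (s / Q) ^ u) Q₀ ε) := by
    intro s
    by_cases hs : s < g * Q
    · obtain ⟨u, hu⟩ := hTT (s / Q) (Cst.idx_lt hs) (s % Q) (Nat.mod_lt s (by omega)) ℓ hℓ (hst.trans hst1)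
      exact ⟨u, fun _ => hu⟩
    · exact ⟨0, fun h => absurd h hs⟩
  choose u hu using hex
  refine ⟨fun s => u s / Q - tm τ Q s ℓst, fun s hs s' hs' k hk i hi k' hk' i' hi' => ?_⟩
  obtain ⟨u1, u2, u3, u4⟩ := hu s' hs'
  have hτs := H.lt hs
  have hτs' := H.lt hs'
  have hK1 : 1 ≤ K := by have := B.hK2; omega
  -- the frequency of the test
  have hfr : fr τ Q s' (u s' / Q) = τ (s' / Q) ^ u s' := by
    unfold fr
    rw [← u1, Nat.div_add_mod]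
  have h24 : (1 : ℝ) ≤ ((Q₀ : ℝ) + 1) * 2 ^ (24 * K) := by
    have h1 : (1 : ℝ) ≤ 2 ^ (24 * K) := one_le_pow₀ (by norm_num)
    have h2 : (0 : ℝ) ≤ Q₀ := Nat.cast_nonneg _
    nlinarith
  have htm : tm τ Q s' ℓ ≤ u s' / Q := by
    refine tm_le ?_
    rw [hfr]
    exact h24.trans u2
  have hst' : tm τ Q s' ℓst ≤ u s' / Q := (tm_mono hQ hτs' hℓ hst).trans htm
  have hy't : fr τ Q s' (tm τ Q s' ℓst + (u s' / Q - tm τ Q s' ℓst)) = τ (s' / Q) ^ u s' := by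
    rw [Nat.add_sub_cancel' hst', hfr]
  -- the numbers
  have hBr : (((2 ^ Λ : ℕ)) : ℝ) = 2 ^ Λ := by push_cast; rfl
  have hℓ2 : 0 < ℓ / 2 ^ Λ := by positivity
  have hℓ2le : ℓ / 2 ^ Λ ≤ ℓ := div_le_self hℓ.le (one_le_pow₀ (by norm_num))
  have m1 := tm_mono hQ hτs hℓ hst
  have m2 := tm_mono hQ hτs hℓ2 hℓ2le
  have hC : τ (s / Q) ^ Q / (τ (s / Q) ^ Q - 1) ≤ K := by
    refine (H.hCb _ (Cst.idx_lt hs)).trans ?_
    exact_mod_cast B.hCbK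
  have hr : (2 : ℝ) ^ (12 * K) ≤ (τ (s / Q) ^ Q) ^ (R * K) := by
    rw [pow_mul, pow_mul]
    exact pow_le_pow_left₀ (by positivity) (H.hR _ (Cst.idx_lt hs)) K
  have hn : 1 ≤ fr τ Q s (tm τ Q s ℓst + (tm τ Q s ℓ - tm τ Q s ℓst)) * ℓ := by
    rw [Nat.add_sub_cancel' m1]
    exact tm_spec hQ hτs hℓ
  have hn' : 1 ≤ fr τ Q s (tm τ Q s ℓst + (tm τ Q s ℓ - tm τ Q s ℓst + (tm τ Q s (ℓ / 2 ^ Λ) - tm τ Q s ℓ))) * (ℓ / (2 ^ Λ : ℕ)) := by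
    rw [show tm τ Q s ℓst + (tm τ Q s ℓ - tm τ Q s ℓst + (tm τ Q s (ℓ / 2 ^ Λ) - tm τ Q s ℓ)) = tm τ Q s (ℓ / 2 ^ Λ) by omega, hBr]
    exact tm_spec hQ hτs hℓ2
  have hB12 : (2 : ℝ) ^ (12 * K) ≤ ((2 ^ Λ : ℕ) : ℝ) := by
    rw [hBr]
    exact pow_le_pow_right₀ (by norm_num) B.hB
  have hnear : ∀ j : ℕ, ¬ (s = s' ∧ j = u s' / Q - tm τ Q s' ℓst) →
      (1 / 2 : ℝ) ^ (12 * K) < fr τ Q s (tm τ Q s ℓst + j) / fr τ Q s' (tm τ Q s' ℓst + (u s' / Q - tm τ Q s' ℓst)) →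
      fr τ Q s (tm τ Q s ℓst + j) / fr τ Q s' (tm τ Q s' ℓst + (u s' / Q - tm τ Q s' ℓst)) < 2 ^ (12 * K) →
      (fr τ Q s (tm τ Q s ℓst + j) ≤ fr τ Q s' (tm τ Q s' ℓst + (u s' / Q - tm τ Q s' ℓst)) ∧
        EqA (fr τ Q s' (tm τ Q s' ℓst + (u s' / Q - tm τ Q s' ℓst)) / fr τ Q s (tm τ Q s ℓst + j)) Q₀ ε) ∨
      (fr τ Q s' (tm τ Q s' ℓst + (u s' / Q - tm τ Q s' ℓst)) ≤ fr τ Q s (tm τ Q s ℓst + j) ∧
        EqA (fr τ Q s (tm τ Q s ℓst + j) / fr τ Q s' (tm τ Q s' ℓst + (u s' / Q - tm τ Q s' ℓst))) Q₀ ε) := by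
    intro j hj
    rw [hy't]
    refine u4 (s / Q) (Cst.idx_lt hs) (Q * (tm τ Q s ℓst + j) + s % Q) ?_
    rintro ⟨e1, e2⟩
    apply hj
    have e3 : (Q * (tm τ Q s ℓst + j) + s % Q) % Q = s % Q := by
      rw [Nat.mul_add_mod, Nat.mod_mod]
    have e4 : s % Q = s' % Q := by rw [← e3, e2, u1]
    have e5 : s = s' := div_mod_inj e1 e4
    refine ⟨e5, ?_⟩
    have e6 : (Q * (tm τ Q s ℓst + j) + s % Q) / Q = tm τ Q s ℓst + j := by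
      rw [Nat.mul_add_div (by omega), Nat.div_eq_of_lt (Nat.mod_lt s (by omega)), add_zero]
    rw [← e2, e6, e5]
    omega
  have ht1 : ((Q₀ : ℝ) + 1) * 2 ^ (24 * K) ≤ fr τ Q s' (tm τ Q s' ℓst + (u s' / Q - tm τ Q s' ℓst)) * ℓ := by rw [hy't]; exact u2
  have ht2 : fr τ Q s' (tm τ Q s' ℓst + (u s' / Q - tm τ Q s' ℓst)) * (ℓ / (2 ^ Λ : ℕ)) ≤ 2 * (1 / 2) ^ (12 * K) := by
    rw [hy't, hBr]; exact u3
  by_cases hss : s = s'
  · subst hss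
    have h1 := pair_corr_same (c := fun j => c (fr τ Q s (tm τ Q s ℓst + j))) (fr_geo hQ hτs (tm τ Q s ℓst)) (K := K)
      (n := tm τ Q s ℓ - tm τ Q s ℓst) (L := tm τ Q s (ℓ / 2 ^ Λ) - tm τ Q s ℓ) (r := R * K) (t := u s / Q - tm τ Q s ℓst) (Q₀ := Q₀)
      (B := 2 ^ Λ) (ε := ε) (a := a) (ℓ := ℓ) hK1 hC hr hℓ hn hB12 hn' (hT s hs) hε0 hε ht1 ht2
      (fun j _ hj => hnear j (fun h => hj h.2)) hk hi hk' hi'
    simp only [true_and]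
    exact h1
  · have h1 := pair_corr3 (c := fun j => c (fr τ Q s (tm τ Q s ℓst + j))) (c' := fun j => c (fr τ Q s' (tm τ Q s' ℓst + j)))
      (fr_geo hQ hτs (tm τ Q s ℓst)) (fun j => fr_pos hτs' _ : ∀ j, 0 < (fun j => fr τ Q s' (tm τ Q s' ℓst + j)) j) (K := K)
      (n := tm τ Q s ℓ - tm τ Q s ℓst) (L := tm τ Q s (ℓ / 2 ^ Λ) - tm τ Q s ℓ) (r := R * K) (t := u s' / Q - tm τ Q s' ℓst) (Q₀ := Q₀)
      (B := 2 ^ Λ) (ε := ε) (a := a) (ℓ := ℓ) hK1 hC hr hℓ hn hB12 hn' (hT s hs) hε0 hε ht1 ht2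
      (fun j _ => hnear j (fun h => hss h.1)) hk hi hk' hi'
    rw [if_neg (fun h => hss h.1), sub_zero]
    exact h1

/-- one block of a stage -/
theorem stage_step (H : Cst τ g Q R CF DF Cb G) (B : Big κ τ g Q R DF Cb G K) (B' : Big κ τ g Q R DF Cb G K') (hK' : K' = K ∨ K' = K + 1)
    (c : ℝ → ℝ) {ℓst ℓ a : ℝ} (hℓ : 0 < ℓ) (hst : ℓ ≤ ℓst) (hst1 : ℓst ≤ 1)
    (hT : ∀ s < g * Q, tm τ Q s ℓ - tm τ Q s ℓst ≤ 2 ^ (K + 1) * (G * K ^ (2 * κ + 1)))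
    (hgood : GoodF τ c g Q R G κ ℓst K a ℓ) :
    (1 / 2 : ℝ) ^ (3 * K) * ((2 ^ (K ^ (2 * κ + 1)) : ℕ) : ℝ) ≤ (by classical exact (((Finset.range (2 ^ (K ^ (2 * κ + 1)))).filter fun b : ℕ =>
      GoodF τ c g Q R G κ ℓst K' (a + b * (ℓ / (2 ^ (K ^ (2 * κ + 1)) : ℕ))) (ℓ / (2 ^ (K ^ (2 * κ + 1)) : ℕ))).card : ℝ)) := by
  classical
  obtain ⟨hL1, hRL, hKL⟩ := B.Lam
  obtain ⟨hL1', hRL', hKL'⟩ := B'.Lam
  obtain ⟨hmG, hCFG, hCbG, hG1⟩ := H.G_ge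
  have hQ := H.hQ
  have hK2 := B.hK2
  have hK1 : 1 ≤ K := by omega
  have hK'1 : 1 ≤ K' := by have := B'.hK2; omega
  have hKK' : K ≤ K' := by omega
  have hK'le : K' ≤ K + 1 := by omega
  set Λ : ℕ := K ^ (2 * κ + 1) with hΛ
  have hBr : (((2 ^ Λ : ℕ)) : ℝ) = 2 ^ Λ := by push_cast; rfl
  have hℓ2 : 0 < ℓ / 2 ^ Λ := by positivity
  have hℓ2le : ℓ / 2 ^ Λ ≤ ℓ := div_le_self hℓ.le (one_le_pow₀ (by norm_num))
  have hℓ2st : ℓ / 2 ^ Λ ≤ ℓst := hℓ2le.trans hst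
  have hℓeq : ℓ / ((2 ^ Λ : ℕ) : ℝ) = ℓ / 2 ^ Λ := by rw [hBr]
  set m : ℕ := g * Q with hm
  have hm1 : 1 ≤ m := Nat.mul_pos H.hg hQ
  set U : ℕ → ℕ → ℝ → ℝ := Us τ c Q ℓst with hU
  set n : ℕ → ℕ := fun s => tm τ Q s ℓ - tm τ Q s ℓst with hn
  set L' : ℕ → ℕ := fun s => tm τ Q s (ℓ / 2 ^ Λ) - tm τ Q s ℓ with hL'
  -- the steps of the classes
  have hmono1 : ∀ s < m, tm τ Q s ℓst ≤ tm τ Q s ℓ := fun s hs => tm_mono hQ (H.lt hs) hℓ hst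
  have hmono2 : ∀ s < m, tm τ Q s ℓ ≤ tm τ Q s (ℓ / 2 ^ Λ) := fun s hs => tm_mono hQ (H.lt hs) hℓ2 hℓ2le
  have hnL : ∀ s < m, n s + L' s = tm τ Q s (ℓ / 2 ^ Λ) - tm τ Q s ℓst := by
    intro s hs
    have h1 := hmono1 s hs
    have h2 := hmono2 s hs
    show tm τ Q s ℓ - tm τ Q s ℓst + (tm τ Q s (ℓ / 2 ^ Λ) - tm τ Q s ℓ) = _
    omega
  have hL'le : ∀ s < m, L' s ≤ CF * Λ := by
    intro s hs
    have h1 := tm_block_le hQ (H.lt hs) (H.hCF _ (Cst.idx_lt hs)) hℓ Λ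
    show tm τ Q s (ℓ / 2 ^ Λ) - tm τ Q s ℓ ≤ _
    omega
  have hL'ge : ∀ s < m, 3 * (R * K) ≤ L' s := by
    intro s hs
    have h1 := tm_block_ge hQ (H.lt hs) (H.hDF _ (Cst.idx_lt hs)) hℓ (hst.trans hst1) (x := 3 * (R * K)) (Λ := Λ) B.hRD
    show _ ≤ tm τ Q s (ℓ / 2 ^ Λ) - tm τ Q s ℓ
    omega
  have hT' : ∀ s < m, n s + L' s + R * K ≤ 2 ^ (2 * K) := fun s hs => B.count H (hT s hs) (hL'le s hs)
  obtain ⟨t, hPC⟩ := stage_PC H B c hℓ hst hst1 hT' (a := a)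
  -- windows
  have hw : ∀ s < m, Wd (U s) (τ (s / Q) ^ Q) (n s) (n s + L' s) a ℓ := fun s hs => Us_Wd H c hℓ hst hs _
  have hw' : ∀ s < m, ∀ b : ℕ, b < 2 ^ Λ → Wd (U s) (τ (s / Q) ^ Q) (n s + L' s) (n s + L' s) (a + b * (ℓ / (2 ^ Λ : ℕ))) (ℓ / (2 ^ Λ : ℕ)) := by
    intro s hs b _
    rw [hnL s hs, hℓeq]
    exact Us_Wd H c hℓ2 hℓ2st hs _
  have hβ : ∀ s < m, 1 < τ (s / Q) ^ Q := fun s hs => base_gt hQ (H.lt hs)
  have hCb : ∀ s < m, τ (s / Q) ^ Q / (τ (s / Q) ^ Q - 1) ≤ (Cb : ℝ) := fun s hs => H.hCb _ (Cst.idx_lt hs)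
  have hcov : ∀ s < m, ∀ k i j₁ j₂ : ℕ, n s ≤ j₁ → j₁ ≤ j₂ →
      |∫ x in a..(a + ℓ), haar k i (U s j₁ x) * haar k i (U s j₂ x)| ≤ 4 * (1 / 2) ^ k * (τ (s / Q) ^ Q)⁻¹ ^ (j₂ - j₁) * ℓ := by
    intro s hs k i j₁ j₂ h1 h2
    refine lin_cov (fr_geo hQ (H.lt hs) _) hℓ ?_ k i h1 h2
    show 1 ≤ fr τ Q s (tm τ Q s ℓst + (tm τ Q s ℓ - tm τ Q s ℓst)) * ℓ
    rw [Nat.add_sub_cancel' (hmono1 s hs)]
    exact tm_spec hQ (H.lt hs) hℓ
  -- numbers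
  have hKr : (1 : ℝ) ≤ K := by exact_mod_cast hK1
  have hGr : (1 : ℝ) ≤ G := by exact_mod_cast hG1
  have hΛr : (1 : ℝ) ≤ (K : ℝ) ^ (2 * κ + 1) := one_le_pow₀ hKr
  have hΛc : ((Λ : ℕ) : ℝ) = (K : ℝ) ^ (2 * κ + 1) := by rw [hΛ]; push_cast; ring
  have hGL : (m : ℝ) * (Cb : ℝ) ^ 2 * ((CF * Λ : ℕ) : ℝ) ≤ G * (K : ℝ) ^ (2 * κ + 1) := by
    have h1 : ((g * Q * Cb ^ 2 * CF : ℕ) : ℝ) ≤ G := by exact_mod_cast H.hG
    push_cast at h1 ⊢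
    rw [hΛc, hm]
    push_cast
    calc (g : ℝ) * Q * Cb ^ 2 * (CF * (K : ℝ) ^ (2 * κ + 1)) = (g * Q * Cb ^ 2 * CF) * (K : ℝ) ^ (2 * κ + 1) := by ring
      _ ≤ _ := mul_le_mul_of_nonneg_right h1 (by linarith)
  have hbigr : 8192 * (G : ℝ) * K * (K : ℝ) ^ (2 * κ + 1) ≤ 2 ^ K := by exact_mod_cast B.hbig
  have hCFL : Λ ≤ CF * Λ := Nat.le_mul_of_pos_left _ H.hCF1
  have hCL : (Cb : ℝ) ≤ ((CF * Λ : ℕ) : ℝ) := by
    have : Cb ≤ CF * Λ := B.hCbK.trans (hKL.trans hCFL)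
    exact_mod_cast this
  have hr2 : (((R * K : ℕ)) : ℝ) ^ 2 ≤ ((CF * Λ : ℕ) : ℝ) := by
    have : (R * K) ^ 2 ≤ CF * Λ := B.hR2.trans hCFL
    exact_mod_cast this
  have hS := step3 (U := U) (β := fun s => τ (s / Q) ^ Q) (K := K) (r := R * K) (L := CF * Λ) (B := 2 ^ Λ) (G := (G : ℝ)) (Λ := (K : ℝ) ^ (2 * κ + 1))
    (Cb := (Cb : ℝ)) hm1 n L' (fun s => n s + L' s) (fun s => n s + L' s) t (Us_measurable τ c Q ℓst) hβ hCb (by exact_mod_cast H.hCb1) hK2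
    (Nat.mul_pos H.hR1 hK1) (fun s hs => ⟨hL'ge s hs, hL'le s hs⟩) hCL hr2 hGL hGr hΛr hbigr hw (fun s _ => le_rfl) hcov
    (Nat.one_le_two_pow) hw' hPC hgood.1 hgood.2
  -- children with a cell boundary
  have hNBc : ∀ s < m, (((Finset.range (2 ^ Λ)).filter fun b : ℕ => ¬ NB (U s) (n s + L' s) (R * K') K' (a + b * (ℓ / (2 ^ Λ : ℕ))) (ℓ / (2 ^ Λ : ℕ))).card : ℝ) ≤
      2 ^ (K + 1) * K * (1 / 2) ^ (12 * K) * ((2 ^ Λ : ℕ) : ℝ) + 2 ^ (2 * K) := by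
    intro s hs
    have h1 := lin_nb (c := fun j => c (fr τ Q s (tm τ Q s ℓst + j))) (fr_geo hQ (H.lt hs) (tm τ Q s ℓst)) hℓ (a := a) (B := 2 ^ Λ) Nat.one_le_two_pow (n := n s + L' s)
      (r := R * K') (K := K') (fun j hj => by
        rw [hℓeq]
        refine (lt_tm ?_).le
        rw [hnL s hs] at hj
        omega)
    refine h1.trans ?_
    have h2 : ((n s + L' s : ℕ) : ℝ) ≤ 2 ^ (2 * K) := by
      have := hT' s hs
      exact_mod_cast (by omega : n s + L' s ≤ 2 ^ (2 * K))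
    have h3 : (τ (s / Q) ^ Q)⁻¹ ^ (R * K') ≤ (1 / 2) ^ (12 * K) := by
      have h4 : (2 : ℝ) ^ (12 * K) ≤ (τ (s / Q) ^ Q) ^ (R * K') := by
        calc (2 : ℝ) ^ (12 * K) = (2 ^ 12) ^ K := pow_mul _ _ _
          _ ≤ ((τ (s / Q) ^ Q) ^ R) ^ K := pow_le_pow_left₀ (by positivity) (H.hR _ (Cst.idx_lt hs)) K
          _ = (τ (s / Q) ^ Q) ^ (R * K) := (pow_mul _ _ _).symm
          _ ≤ _ := pow_le_pow_right₀ (hβ s hs).le (Nat.mul_le_mul_left R hKK')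
      rw [inv_pow, ← one_div, one_div_pow]
      exact one_div_le_one_div_of_le (by positivity) h4
    have h5 : (2 : ℝ) ^ K' ≤ 2 ^ (K + 1) := pow_le_pow_right₀ (by norm_num) hK'le
    have h6 : τ (s / Q) ^ Q / (τ (s / Q) ^ Q - 1) ≤ (K : ℝ) := (hCb s hs).trans (by exact_mod_cast B.hCbK)
    have h7 : 0 ≤ τ (s / Q) ^ Q / (τ (s / Q) ^ Q - 1) := div_nonneg (by linarith [hβ s hs]) (by linarith [hβ s hs])
    have h8 : 0 ≤ (τ (s / Q) ^ Q)⁻¹ ^ (R * K') := by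
      have := hβ s hs
      positivity
    have h9 : 2 ^ K' * (τ (s / Q) ^ Q / (τ (s / Q) ^ Q - 1)) * (τ (s / Q) ^ Q)⁻¹ ^ (R * K') * ((2 ^ Λ : ℕ) : ℝ) ≤
        2 ^ (K + 1) * K * (1 / 2) ^ (12 * K) * ((2 ^ Λ : ℕ) : ℝ) := by gcongr
    linarith
  -- good children
  have hsub : ((Finset.range (2 ^ Λ)).filter fun b : ℕ =>
      ∑ s ∈ Finset.range m, Pot (U s) (n s + L' s) (R * K) K (1 / (8192 * G * K * (K : ℝ) ^ (2 * κ + 1))) (a + b * (ℓ / (2 ^ Λ : ℕ))) (ℓ / (2 ^ Λ : ℕ)) ≤ 16 ^ K) ⊆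
      ((Finset.range (2 ^ Λ)).filter fun b : ℕ => GoodF τ c g Q R G κ ℓst K' (a + b * (ℓ / (2 ^ Λ : ℕ))) (ℓ / (2 ^ Λ : ℕ))) ∪
      (Finset.range m).biUnion fun s => (Finset.range (2 ^ Λ)).filter fun b : ℕ =>
        ¬ NB (U s) (n s + L' s) (R * K') K' (a + b * (ℓ / (2 ^ Λ : ℕ))) (ℓ / (2 ^ Λ : ℕ)) := by
    intro b hb
    rw [Finset.mem_filter] at hb
    obtain ⟨hb1, hb2⟩ := hb
    rw [Finset.mem_union, Finset.mem_filter]
    by_cases hnb : ∀ s < m, NB (U s) (n s + L' s) (R * K') K' (a + b * (ℓ / (2 ^ Λ : ℕ))) (ℓ / (2 ^ Λ : ℕ))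
    · left
      refine ⟨hb1, ?_, ?_⟩
      · intro s hs
        have h1 := hnb s hs
        rw [hnL s hs] at h1
        rw [hℓeq] at h1 ⊢
        exact h1
      · have hgoal : ∑ s ∈ Finset.range m, Pot (U s) (n s + L' s) (R * K') K' (1 / (8192 * G * K' * (K' : ℝ) ^ (2 * κ + 1)))
            (a + b * (ℓ / (2 ^ Λ : ℕ))) (ℓ / (2 ^ Λ : ℕ)) ≤ 16 ^ K' := by
          rcases hK' with e | e
          · rw [e]; exact hb2
          · have hΛK : (K : ℝ) ^ (2 * κ + 1) ≤ (K' : ℝ) ^ (2 * κ + 1) :=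
              pow_le_pow_left₀ (by linarith) (by exact_mod_cast hKK') _
            have hΛ'r : (1 : ℝ) ≤ (K' : ℝ) ^ (2 * κ + 1) := hΛr.trans hΛK
            have h1 : ∀ s ∈ Finset.range m, Pot (U s) (n s + L' s) (R * K') K' (1 / (8192 * G * K' * (K' : ℝ) ^ (2 * κ + 1)))
                (a + b * (ℓ / (2 ^ Λ : ℕ))) (ℓ / (2 ^ Λ : ℕ)) ≤
                6 * Pot (U s) (n s + L' s) (R * K) K (1 / (8192 * G * K * (K : ℝ) ^ (2 * κ + 1))) (a + b * (ℓ / (2 ^ Λ : ℕ))) (ℓ / (2 ^ Λ : ℕ)) + 4 := by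
              intro s hs
              have hs' := Finset.mem_range.1 hs
              have hlam' : 0 < lamG G K' ((K' : ℝ) ^ (2 * κ + 1)) := lamG_pos hG1 hK'1 hΛ'r
              have h2 := trans3 (hβ s hs') (r := R * K) (r' := R * K') hK1 (hw' s hs' b (Finset.mem_range.1 hb1))
                (lam := lamG G K ((K : ℝ) ^ (2 * κ + 1))) (lam' := lamG G K' ((K' : ℝ) ^ (2 * κ + 1))) hlam'.le
                (lamG_anti hG1 hK1 hΛr hKK' hΛK)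
                (by
                  refine lamG_mul_le hG1 hK1 hΛr ?_
                  set GΛ : ℝ := (G : ℝ) * (K : ℝ) ^ (2 * κ + 1) with hGΛ
                  have hGΛ1 : 1 ≤ GΛ := one_le_mul_of_one_le_of_one_le hGr hΛr
                  have e1 : ((n s + L' s : ℕ) : ℝ) ≤ 2 ^ (K + 1) * GΛ + GΛ := by
                    have e2 : n s ≤ 2 ^ (K + 1) * (G * Λ) := hT s hs'
                    have e3 : L' s ≤ G * Λ := (hL'le s hs').trans (Nat.mul_le_mul_right _ hCFG)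
                    have e4 : ((n s + L' s : ℕ) : ℝ) ≤ ((2 ^ (K + 1) * (G * Λ) + G * Λ : ℕ) : ℝ) := by exact_mod_cast Nat.add_le_add e2 e3
                    refine e4.trans (le_of_eq ?_)
                    push_cast
                    rw [hΛc, hGΛ]
                  have e3 : (1 / 2 : ℝ) ^ K ≤ 1 := pow_le_one₀ (by norm_num) (by norm_num)
                  have e4 : ((n s + L' s : ℕ) : ℝ) * (1 / 2) ^ K ≤ 3 * GΛ := by
                    calc ((n s + L' s : ℕ) : ℝ) * (1 / 2) ^ K ≤ (2 ^ (K + 1) * GΛ + GΛ) * (1 / 2) ^ K :=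
                          mul_le_mul_of_nonneg_right e1 (by positivity)
                      _ = 2 * GΛ * (2 ^ K * (1 / 2) ^ K) + GΛ * (1 / 2) ^ K := by rw [pow_succ]; ring
                      _ ≤ 2 * GΛ * 1 + GΛ * 1 := by
                          have e5 : (2 : ℝ) ^ K * (1 / 2) ^ K = 1 := by rw [← mul_pow]; norm_num
                          rw [e5]
                          have := mul_le_mul_of_nonneg_left e3 (show 0 ≤ GΛ by linarith)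
                          linarith
                      _ = _ := by ring
                  have e5 : τ (s / Q) ^ Q / (τ (s / Q) ^ Q - 1) ≤ GΛ := by
                    refine (hCb s hs').trans ?_
                    have : (Cb : ℝ) ≤ G := by exact_mod_cast hCbG
                    have h10 : (G : ℝ) ≤ GΛ := le_mul_of_one_le_right (by linarith) hΛr
                    linarith
                  have e6 : 4096 * (G : ℝ) * K * (K : ℝ) ^ (2 * κ + 1) = 4096 * K * GΛ := by rw [hGΛ]; ring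
                  rw [e6]
                  have e7 : GΛ ≤ K * GΛ := le_mul_of_one_le_left (by linarith) hKr
                  nlinarith)
                (lamG_r hG1 hK'1 hΛ'r (by
                  have h3 : R * K' ≤ K' ^ (2 * κ + 1) := hRL'
                  exact_mod_cast h3))
              rw [← e] at h2
              exact h2
            refine (Finset.sum_le_sum h1).trans ?_
            rw [Finset.sum_add_distrib, ← Finset.mul_sum, Finset.sum_const, Finset.card_range, nsmul_eq_mul]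
            have h2 : (m : ℝ) ≤ 2 ^ K := by
              have h3 : m ≤ 2 ^ K := by
                have h4 : 8192 * G * K * Λ ≤ 2 ^ K := B.hbig
                have h5 : G ≤ 8192 * G * K * Λ := by
                  calc G = G * 1 := (mul_one G).symm
                    _ ≤ G * (8192 * K * Λ) := Nat.mul_le_mul_left _ (Nat.mul_pos (Nat.mul_pos (by norm_num) hK1) hL1)
                    _ = 8192 * G * K * Λ := by ring
                omega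
              exact_mod_cast h3
            have h3 : (2 : ℝ) ^ K ≤ 16 ^ K := pow_le_pow_left₀ (by norm_num) (by norm_num) K
            have h4 : (16 : ℝ) ^ K' = 16 ^ K * 16 := by rw [e, pow_succ]
            rw [h4]
            have h5 := mul_le_mul_of_nonneg_left hb2 (show (0 : ℝ) ≤ 6 by norm_num)
            have h6 : (m : ℝ) * 4 ≤ 16 ^ K * 4 := by linarith
            have h7 : (0 : ℝ) < 16 ^ K := by positivity
            refine (add_le_add h5 h6).trans ?_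
            linarith
        have h2 : ∑ s ∈ Finset.range m, Pot (U s) (n s + L' s) (R * K') K' (1 / (8192 * G * K' * (K' : ℝ) ^ (2 * κ + 1)))
            (a + b * (ℓ / (2 ^ Λ : ℕ))) (ℓ / (2 ^ Λ : ℕ)) =
            ∑ s ∈ Finset.range (g * Q), Pot (Us τ c Q ℓst s) (tm τ Q s (ℓ / (2 ^ Λ : ℕ)) - tm τ Q s ℓst) (R * K') K'
              (1 / (8192 * G * K' * (K' : ℝ) ^ (2 * κ + 1))) (a + b * (ℓ / (2 ^ Λ : ℕ))) (ℓ / (2 ^ Λ : ℕ)) := by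
          refine Finset.sum_congr rfl fun s hs => ?_
          rw [hnL s (Finset.mem_range.1 hs), hℓeq]
        rw [← h2]
        exact hgoal
    · right
      push Not at hnb
      obtain ⟨s, hs, hs'⟩ := hnb
      rw [Finset.mem_biUnion]
      exact ⟨s, Finset.mem_range.2 hs, Finset.mem_filter.2 ⟨hb1, hs'⟩⟩
  have hcard := (Finset.card_le_card hsub).trans ((Finset.card_union_le _ _).trans (Nat.add_le_add_left Finset.card_biUnion_le _))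
  have hcard' := (Nat.cast_le (α := ℝ)).2 hcard
  push_cast at hcard'
  have hbad : ∑ s ∈ Finset.range m, (((Finset.range (2 ^ Λ)).filter fun b : ℕ =>
      ¬ NB (U s) (n s + L' s) (R * K') K' (a + b * (ℓ / 2 ^ Λ)) (ℓ / 2 ^ Λ)).card : ℝ) ≤ (1 / 2) ^ (3 * K) * ((2 ^ Λ : ℕ) : ℝ) := by
    have h1 : ∑ s ∈ Finset.range m, (((Finset.range (2 ^ Λ)).filter fun b : ℕ =>
        ¬ NB (U s) (n s + L' s) (R * K') K' (a + b * (ℓ / 2 ^ Λ)) (ℓ / 2 ^ Λ)).card : ℝ) ≤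
        ∑ _s ∈ Finset.range m, (2 ^ (K + 1) * K * (1 / 2) ^ (12 * K) * ((2 ^ Λ : ℕ) : ℝ) + 2 ^ (2 * K)) := by
      refine Finset.sum_le_sum fun s hs => ?_
      have h2 := hNBc s (Finset.mem_range.1 hs)
      rw [hBr] at h2 ⊢
      convert h2 using 3
    refine h1.trans ?_
    rw [Finset.sum_const, Finset.card_range, nsmul_eq_mul]
    obtain ⟨z, hz⟩ : ∃ z : ℝ, z = 2 ^ K := ⟨_, rfl⟩
    have hz4 : 4 ≤ z := by
      rw [hz]
      calc (4 : ℝ) = 2 ^ 2 := by norm_num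
        _ ≤ 2 ^ K := pow_le_pow_right₀ (by norm_num) hK2
    have hGz : 8192 * (G * K) ≤ z := by
      rw [hz]
      have h3 : 8192 * ((G : ℝ) * K) * 1 ≤ 8192 * ((G : ℝ) * K) * (K : ℝ) ^ (2 * κ + 1) := mul_le_mul_of_nonneg_left hΛr (by positivity)
      calc 8192 * ((G : ℝ) * K) = 8192 * ((G : ℝ) * K) * 1 := (mul_one _).symm
        _ ≤ _ := h3
        _ = 8192 * (G : ℝ) * K * (K : ℝ) ^ (2 * κ + 1) := by ring
        _ ≤ _ := hbigr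
    have hmz : (m : ℝ) * K ≤ z := by
      have h3 : (m : ℝ) ≤ G := by exact_mod_cast hmG
      have h4 : (m : ℝ) * K ≤ G * K := mul_le_mul_of_nonneg_right h3 (by linarith)
      have h5 : (G : ℝ) * K ≤ 8192 * (G * K) := by
        have : (0 : ℝ) ≤ G * K := by positivity
        linarith
      linarith
    have hm1r : (m : ℝ) ≤ z := by
      have h3 : (m : ℝ) * 1 ≤ m * K := mul_le_mul_of_nonneg_left hKr (Nat.cast_nonneg m)
      linarith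
    have h12 : (1 / 2 : ℝ) ^ (12 * K) = 1 / z ^ 12 := by rw [hz, one_div_pow, ← pow_mul, mul_comm K 12]
    have h3' : (1 / 2 : ℝ) ^ (3 * K) = 1 / z ^ 3 := by rw [hz, one_div_pow, ← pow_mul, mul_comm K 3]
    have h2' : (2 : ℝ) ^ (2 * K) = z ^ 2 := by rw [hz, ← pow_mul, mul_comm K 2]
    have hk1 : (2 : ℝ) ^ (K + 1) = 2 * z := by rw [hz, pow_succ]; ring
    have hB12 : z ^ 12 ≤ ((2 ^ Λ : ℕ) : ℝ) := by
      rw [hBr, hz, ← pow_mul, mul_comm K 12]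
      exact pow_le_pow_right₀ (by norm_num) B.hB
    obtain ⟨Y, hY⟩ : ∃ Y : ℝ, Y = ((2 ^ Λ : ℕ) : ℝ) := ⟨_, rfl⟩
    rw [← hY] at hB12
    rw [← hY]
    have hY0 : 0 < Y := lt_of_lt_of_le (by positivity) hB12
    rw [h12, h3', h2', hk1]
    have q1 : (m : ℝ) * (2 * z * K * (1 / z ^ 12) * Y) ≤ 2 * z ^ 2 * (1 / z ^ 12) * Y := by
      have : (m : ℝ) * (2 * z * K * (1 / z ^ 12) * Y) = 2 * z * (m * K) * (1 / z ^ 12) * Y := by ring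
      rw [this]
      calc 2 * z * (m * K) * (1 / z ^ 12) * Y ≤ 2 * z * z * (1 / z ^ 12) * Y := by gcongr
        _ = _ := by ring
    have q2 : 2 * z ^ 2 * (1 / z ^ 12) * Y = 2 / z ^ 7 * (1 / z ^ 3 * Y) := by
      field_simp
    have q3 : (m : ℝ) * z ^ 2 ≤ 1 / z ^ 6 * (1 / z ^ 3 * Y) := by
      have : z ^ 3 ≤ 1 / z ^ 6 * (1 / z ^ 3 * Y) := by
        have e1 : 1 / z ^ 6 * (1 / z ^ 3 * Y) = Y / z ^ 9 := by
          field_simp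
        rw [e1, le_div_iff₀ (by positivity)]
        calc z ^ 3 * z ^ 9 = z ^ 12 := by ring
          _ ≤ Y := hB12
      refine le_trans ?_ this
      calc (m : ℝ) * z ^ 2 ≤ z * z ^ 2 := by gcongr
        _ = z ^ 3 := by ring
    have q4 : 2 / z ^ 7 ≤ 1 / 2 := by
      rw [div_le_div_iff₀ (by positivity) (by norm_num)]
      have : (4 : ℝ) ^ 7 ≤ z ^ 7 := pow_le_pow_left₀ (by norm_num) hz4 7
      linarith
    have q5 : 1 / z ^ 6 ≤ 1 / 2 := by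
      rw [div_le_div_iff₀ (by positivity) (by norm_num)]
      have : (4 : ℝ) ^ 6 ≤ z ^ 6 := pow_le_pow_left₀ (by norm_num) hz4 6
      linarith
    have q6 : 0 ≤ 1 / z ^ 3 * Y := by positivity
    rw [mul_add]
    have q7 := mul_le_mul_of_nonneg_right q4 q6
    have q8 := mul_le_mul_of_nonneg_right q5 q6
    linarith
  have hfin : 2 * (1 / 2 : ℝ) ^ (3 * K) * ((2 ^ Λ : ℕ) : ℝ) ≤
      (((Finset.range (2 ^ Λ)).filter fun b : ℕ => GoodF τ c g Q R G κ ℓst K' (a + b * (ℓ / 2 ^ Λ)) (ℓ / 2 ^ Λ)).card : ℝ) +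
        (1 / 2) ^ (3 * K) * ((2 ^ Λ : ℕ) : ℝ) := by
    have hS2 := hS
    rw [hℓeq] at hS2
    refine hS2.trans (le_trans ?_ (add_le_add_right hbad _))
    convert hcard' using 3
  have hfin2 : (1 / 2 : ℝ) ^ (3 * K) * ((2 ^ Λ : ℕ) : ℝ) ≤
      (((Finset.range (2 ^ Λ)).filter fun b : ℕ => GoodF τ c g Q R G κ ℓst K' (a + b * (ℓ / 2 ^ Λ)) (ℓ / 2 ^ Λ)).card : ℝ) := by
    linarith
  rw [hℓeq]
  convert hfin2 using 3

/-- the start of a stage: every window is good -/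
theorem stage_start (H : Cst τ g Q R CF DF Cb G) (B : Big κ τ g Q R DF Cb G K) (c : ℝ → ℝ) {ℓst a : ℝ} (hℓ : 0 < ℓst) :
    GoodF τ c g Q R G κ ℓst K a ℓst := by
  obtain ⟨hL1, hRL, hKL⟩ := B.Lam
  obtain ⟨hmG, hCFG, hCbG, hG1⟩ := H.G_ge
  have hK2 := B.hK2
  have hK1 : 1 ≤ K := by omega
  have hKr : (1 : ℝ) ≤ K := by exact_mod_cast hK1
  have hGr : (1 : ℝ) ≤ G := by exact_mod_cast hG1
  have hΛr : (1 : ℝ) ≤ (K : ℝ) ^ (2 * κ + 1) := one_le_pow₀ hKr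
  refine ⟨fun s hs j hj => ?_, ?_⟩
  · rw [Nat.sub_self] at hj
    omega
  have h1 : ∀ s ∈ Finset.range (g * Q), Pot (Us τ c Q ℓst s) (tm τ Q s ℓst - tm τ Q s ℓst) (R * K) K
      (1 / (8192 * G * K * (K : ℝ) ^ (2 * κ + 1))) a ℓst ≤ 4 * 2 ^ K := by
    intro s hs
    have hs' := Finset.mem_range.1 hs
    have hw := Us_Wd H c (a := a) hℓ le_rfl hs' 0
    rw [Nat.sub_self] at hw ⊢
    refine pot_start3 (base_gt H.hQ (H.lt hs')) hw hK1 hG1 hΛr ?_ (by exact_mod_cast hRL)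
    refine (H.hCb _ (Cst.idx_lt hs')).trans ?_
    have h2 : (Cb : ℝ) ≤ G := by exact_mod_cast hCbG
    exact h2.trans (le_mul_of_one_le_right (by linarith) hΛr)
  refine (Finset.sum_le_sum h1).trans ?_
  rw [Finset.sum_const, Finset.card_range, nsmul_eq_mul]
  have h2 : ((g * Q : ℕ) : ℝ) * 4 ≤ 2 ^ K := by
    have h3 : g * Q * 4 ≤ 2 ^ K := by
      have h4 : 8192 * G * K * K ^ (2 * κ + 1) ≤ 2 ^ K := B.hbig
      have h5 : G * 4 ≤ 8192 * G * K * K ^ (2 * κ + 1) := by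
        calc G * 4 ≤ G * (8192 * (K * K ^ (2 * κ + 1))) := by
              refine Nat.mul_le_mul_left _ ?_
              have : 1 ≤ K * K ^ (2 * κ + 1) := Nat.mul_pos hK1 hL1
              omega
          _ = 8192 * G * K * K ^ (2 * κ + 1) := by ring
      have h6 : g * Q * 4 ≤ G * 4 := Nat.mul_le_mul_right _ hmG
      exact h6.trans (h5.trans h4)
    exact_mod_cast h3
  calc ((g * Q : ℕ) : ℝ) * (4 * 2 ^ K) = ((g * Q : ℕ) : ℝ) * 4 * 2 ^ K := by ring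
    _ ≤ 2 ^ K * 2 ^ K := mul_le_mul_of_nonneg_right h2 (by positivity)
    _ = 4 ^ K := by rw [← mul_pow]; norm_num
    _ ≤ 16 ^ K := pow_le_pow_left₀ (by norm_num) (by norm_num) K

theorem Pot_nonneg (U : ℕ → ℝ → ℝ) (n r K : ℕ) (lam a : ℝ) {ℓ : ℝ} (hℓ : 0 < ℓ) : 0 ≤ Pot U n r K lam a ℓ := by
  unfold Pot
  refine Finset.sum_nonneg fun p _ => ?_
  have h1 := (Real.cosh_pos (lam * M U p.1 p.2 a ℓ)).le
  have h2 := Pool.Agent.Helper88.LD2.W_nonneg (U := U) n r p.1 p.2 (a := a) hℓ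
  positivity

/-- the discrepancy of one class on a good window -/
theorem stage_disc (H : Cst τ g Q R CF DF Cb G) (B : Big κ τ g Q R DF Cb G K) (c : ℝ → ℝ) {ℓst ℓ a : ℝ} (hℓ : 0 < ℓ) (hst : ℓ ≤ ℓst)
    {s : ℕ} (hs : s < g * Q) (hT : tm τ Q s ℓ - tm τ Q s ℓst ≤ 2 ^ (K + 1) * (G * K ^ (2 * κ + 1)))
    (hgood : GoodF τ c g Q R G κ ℓst K a ℓ) {x : ℝ} (hx : x ∈ Icc a (a + ℓ)) :
    DiscLe (fun j => Us τ c Q ℓst s j x) (tm τ Q s ℓ - tm τ Q s ℓst) (140000 * G * (K : ℝ) ^ (2 * κ + 4)) := by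
  obtain ⟨hL1, hRL, hKL⟩ := B.Lam
  obtain ⟨hmG, hCFG, hCbG, hG1⟩ := H.G_ge
  have hK2 := B.hK2
  have hK1 : 1 ≤ K := by omega
  have hKr : (1 : ℝ) ≤ K := by exact_mod_cast hK1
  have hGr : (1 : ℝ) ≤ G := by exact_mod_cast hG1
  have hΛr : (1 : ℝ) ≤ (K : ℝ) ^ (2 * κ + 1) := one_le_pow₀ hKr
  have hw := Us_Wd H c (a := a) hℓ hst hs 0
  have h1 := disc3 (base_gt H.hQ (H.lt hs)) hw hK1 hG1 hΛr (r := R * K)
    (by
      refine (H.hCb _ (Cst.idx_lt hs)).trans ?_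
      have h2 : (Cb : ℝ) ≤ G := by exact_mod_cast hCbG
      exact h2.trans (le_mul_of_one_le_right (by linarith) hΛr))
    (by exact_mod_cast hRL) (by exact_mod_cast hT) (hgood.1 s hs)
    ((Finset.single_le_sum (f := fun s => Pot (Us τ c Q ℓst s) (tm τ Q s ℓ - tm τ Q s ℓst) (R * K) K
      (1 / (8192 * G * K * (K : ℝ) ^ (2 * κ + 1))) a ℓ) (fun s _ => Pot_nonneg _ _ _ _ _ _ hℓ) (Finset.mem_range.2 hs)).trans hgood.2) hx
  have e : 140000 * (G : ℝ) * (K : ℝ) ^ (2 * κ + 4) = 140000 * G * (K : ℝ) ^ 3 * (K : ℝ) ^ (2 * κ + 1) := by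
    rw [mul_assoc (140000 * (G : ℝ)), ← pow_add]
    congr 2
    omega
  rw [e]
  exact h1

end

end Pool.Agent.Helper41.LD3
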